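import Pool.Agent.VB.N

/-!
# Monotone relations form a cluster system
-/

set_option autoImplicit false
set_option linter.unusedSectionVars false
set_option linter.unusedVariables false

namespace Pool.Agent.MON

open Set Pool.Agent.Helper5 Pool.Agent.Helper5.DU Pool.Agent.Helper6.Str
  Pool.Agent.Helper79.VC Pool.Agent.Helper97.VC Pool.Agent.Helper97.MD Pool.Agent.Helper6.VC
  Pool.Agent.Helper97.LO

variable {L : FirstOrder.Language.{0, 0}} {M N : Type} {σ : Sig L} {S : L.Structure M}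

/-- the dual composition -/
def ca (σ : Sig L) (i k : σ.ι) : σ.ι := σ.st (σ.cp (σ.st k) (σ.st i))

namespace Mon

variable (h : Mon σ S)

include h

theorem caR (i k : σ.ι) (v y : M) :
    Rl σ S (ca σ i k) v y ↔ ∀ x, ¬ Rl σ S i v x → Rl σ S k x y := by
  unfold ca
  rw [h.star, h.comp]
  constructor
  · intro h1 x hx
    by_contra hk
    exact h1 ⟨x, (h.star k x y).mpr hk, (h.star i v x).mpr hx⟩
  · rintro h1 ⟨x, hx, hx'⟩
    exact (h.star k x y).mp hx (h1 x ((h.star i v x).mp hx'))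

theorem m2 {i : σ.ι} {x y y' : M} (h1 : Rl σ S i x y) (h2 : Rl σ S σ.le y y') :
    Rl σ S i x y' := h.mono i x x y y' (h.refl x) h1 h2

theorem m1 {i : σ.ι} {x x' y : M} (h1 : Rl σ S i x y) (h2 : Rl σ S σ.le x' x) :
    Rl σ S i x' y := h.mono i x' x y y h2 h1 (h.refl y)

/-- `y` is below the cut and `y'` above -/
theorem lt2 {j : σ.ι} {w y y' : M} (h1 : ¬ Rl σ S j w y) (h2 : Rl σ S j w y') :
    Rl σ S σ.le y y' := by
  rcases h.total y y' with h3 | h3
  · exact h3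
  · exact absurd (h.m2 h2 h3) h1

theorem lt1 {j : σ.ι} {w w' y : M} (h1 : ¬ Rl σ S j w y) (h2 : Rl σ S j w' y) :
    Rl σ S σ.le w' w := by
  rcases h.total w' w with h3 | h3
  · exact h3
  · exact absurd (h.m1 h2 h3) h1

theorem cpL (i j : σ.ι) (x w : M) :
    Rl σ S (σ.cp i (σ.st j)) x w ↔ ∃ y, Rl σ S i x y ∧ ¬ Rl σ S j w y := by
  rw [h.comp]
  refine exists_congr fun y => and_congr Iff.rfl ?_
  exact h.star j w y

theorem in_iff {F : Finset M} {i : σ.ι} {x u : M} : In σ S F i x u ↔ ∀ w ∈ F, ∀ j,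
    (¬ Rl σ S j w u → ∃ y, Rl σ S i x y ∧ ¬ Rl σ S j w y) ∧
    (Rl σ S j w u → ∃ y, Rl σ S j w y ∧ ¬ Rl σ S i x y) := by
  unfold In
  simp only [h.cpL]

/-- `In` depends only on the cut -/
theorem in_cut {F : Finset M} {i k : σ.ι} {x x' u : M}
    (hc : ∀ y, Rl σ S i x y ↔ Rl σ S k x' y) (h1 : In σ S F i x u) : In σ S F k x' u := by
  rw [h.in_iff] at h1 ⊢
  intro w hw j
  obtain ⟨ha, hb⟩ := h1 w hw j
  refine ⟨fun h2 => ?_, fun h2 => ?_⟩
  · obtain ⟨y, hy, hy'⟩ := ha h2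
    exact ⟨y, (hc y).mp hy, hy'⟩
  · obtain ⟨y, hy, hy'⟩ := hb h2
    exact ⟨y, hy, fun h3 => hy' ((hc y).mpr h3)⟩

theorem in_irr {F : Finset M} {i : σ.ι} {w u : M} (hw : w ∈ F) : ¬ In σ S F i w u := by
  intro h1
  rw [h.in_iff] at h1
  obtain ⟨ha, hb⟩ := h1 w hw i
  by_cases h2 : Rl σ S i w u
  · obtain ⟨y, hy, hy'⟩ := hb h2
    exact hy' hy
  · obtain ⟨y, hy, hy'⟩ := ha h2
    exact hy' hy

/-- same cell of the point -/
theorem in_ce {F : Finset M} {i : σ.ι} {x u u' : M} (hu : Ce σ S F u u')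
    (h1 : In σ S F i x u) : In σ S F i x u' := by
  intro w hw j
  obtain ⟨ha, hb⟩ := h1 w hw j
  exact ⟨fun h2 => ha fun h3 => h2 ((hu w hw j).mp h3), fun h2 => hb ((hu w hw j).mpr h2)⟩

/-- same cell of the parameter -/
theorem in_ce' {F : Finset M} {i : σ.ι} {x x' u : M} (hx : Ce σ S F x x')
    (h1 : In σ S F i x u) : In σ S F i x' u := by
  intro w hw j
  obtain ⟨ha, hb⟩ := h1 w hw j
  refine ⟨fun h2 => ?_, fun h2 => ?_⟩
  · have h3 := ha h2
    by_contra h4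
    -- `Rl (cp i (st j)) x w` in terms of relations from `w`
    have h5 := (h.star (σ.cp i (σ.st j)) x' w).mpr h4
    exact (h.star (σ.cp i (σ.st j)) x w).mp ((hx w hw _).mpr h5) h3
  · exact (hx w hw _).mp (hb h2)

theorem symm {F : Finset M} {i : σ.ι} {x u : M} (h1 : In σ S F i x u) :
    In σ S F (σ.st i) u x := by
  rw [h.in_iff] at h1 ⊢
  intro w hw j
  refine ⟨fun h2 => ?_, fun h2 => ?_⟩
  · by_contra hc
    push Not at hc
    -- the relation `∀ z, Rl j w z ∨ Rl i z ·`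
    have hk : Rl σ S (ca σ j i) w u := by
      rw [h.caR]
      intro z hz
      by_contra h3
      exact hz (hc z ((h.star i z u).mpr h3))
    obtain ⟨y, hy, hy'⟩ := (h1 w hw _).2 hk
    rw [h.caR] at hy
    exact hy' (hy x h2)
  · by_contra hc
    push Not at hc
    have hk : ¬ Rl σ S (σ.cp j i) w u := by
      rw [h.comp]
      rintro ⟨z, hz, hz'⟩
      exact (h.star i z u).mp (hc z hz) hz'
    obtain ⟨y, hy, hy'⟩ := (h1 w hw _).1 hk
    rw [h.comp] at hy'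
    exact hy' ⟨x, h2, hy⟩

theorem comp1 {F : Finset M} {i k : σ.ι} {v u z : M} (h1 : In σ S F i v u)
    (h2 : In σ S F k u z) (h3 : ¬ Rl σ S i v u) : In σ S F (ca σ i k) v z := by
  rw [h.in_iff] at h1 h2 ⊢
  intro w hw j
  refine ⟨fun h4 => ?_, fun h4 => ?_⟩
  · obtain ⟨y, hy, hy'⟩ := (h2 w hw j).1 h4
    -- the relation `∀ y, ¬ Rl j w y → ¬ Rl k · y`
    have hn : ¬ Rl σ S (ca σ j (σ.st k)) w u := by
      rw [h.caR]
      intro h5
      exact (h.star k u y).mp (h5 y hy') hy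
    obtain ⟨x', hx, hx'⟩ := (h1 w hw _).1 hn
    rw [h.caR] at hx'
    push Not at hx'
    obtain ⟨y', hy1, hy2⟩ := hx'
    have hy3 : Rl σ S k x' y' := by
      by_contra h5
      exact hy2 ((h.star k x' y').mpr h5)
    refine ⟨y', ?_, hy1⟩
    rw [h.caR]
    intro x hx1
    exact h.m1 hy3 (h.lt2 hx1 hx)
  · obtain ⟨y, hy, hy'⟩ := (h2 w hw j).2 h4
    refine ⟨y, hy, fun h5 => hy' ?_⟩
    rw [h.caR] at h5
    exact h5 u h3

theorem comp2 {F : Finset M} {i k : σ.ι} {v u z : M} (h1 : In σ S F i v u)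
    (h2 : In σ S F k u z) (h3 : Rl σ S i v u) : In σ S F (σ.cp i k) v z := by
  rw [h.in_iff] at h1 h2 ⊢
  intro w hw j
  refine ⟨fun h4 => ?_, fun h4 => ?_⟩
  · obtain ⟨y, hy, hy'⟩ := (h2 w hw j).1 h4
    exact ⟨y, (h.comp i k v y).mpr ⟨u, h3, hy⟩, hy'⟩
  · obtain ⟨y, hy, hy'⟩ := (h2 w hw j).2 h4
    have hn : Rl σ S (σ.cp j (σ.st k)) w u := by
      rw [h.comp]
      exact ⟨y, hy, (h.star k u y).mpr hy'⟩
    obtain ⟨x', hx, hx'⟩ := (h1 w hw _).2 hn
    rw [h.comp] at hx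
    obtain ⟨y', hy1, hy2⟩ := hx
    have hy3 : ¬ Rl σ S k x' y' := (h.star k x' y').mp hy2
    refine ⟨y', hy1, fun h5 => ?_⟩
    rw [h.comp] at h5
    obtain ⟨x, hx1, hx2⟩ := h5
    exact hy3 (h.m1 hx2 (h.lt2 hx' hx1))

theorem pctr (F : Finset M) (x y z : M) (h1 : Pc σ S F x y) (h2 : Pc σ S F y z) :
    Pc σ S F x z := by
  rcases h1 with rfl | ⟨i, hi⟩
  · exact h2
  rcases h2 with rfl | ⟨k, hk⟩
  · exact Or.inr ⟨i, hi⟩
  by_cases h3 : Rl σ S i x y
  · exact Or.inr ⟨_, h.comp2 hi hk h3⟩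
  · exact Or.inr ⟨_, h.comp1 hi hk h3⟩

theorem letr (F : Finset M) (x y z : M) (h1 : Le σ S F x y) (h2 : Le σ S F y z) :
    Le σ S F x z := by
  rcases h1 with rfl | ⟨k, hk, hk'⟩
  · exact h2
  rcases h2 with rfl | ⟨i, hi, hi'⟩
  · exact Or.inr ⟨k, hk, hk'⟩
  refine Or.inr ⟨_, ?_, h.comp1 hi' hk' hi⟩
  rw [h.caR]
  intro h3
  exact hk (h3 y hi)

theorem le_of_in {F : Finset M} {i : σ.ι} {x u : M} (h1 : In σ S F i x u)
    (h2 : ¬ Rl σ S i x u) : Le σ S F u x := Or.inr ⟨i, h2, h1⟩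

theorem le_of_in' {F : Finset M} {i : σ.ι} {x u : M} (h1 : In σ S F i x u)
    (h2 : Rl σ S i x u) : Le σ S F x u :=
  Or.inr ⟨σ.st i, fun h3 => (h.star i x u).mp h3 h2, h.symm h1⟩

theorem le_iff' {F : Finset M} {x u : M} : Le σ S F x u ↔
    x = u ∨ ∃ i, Rl σ S i x u ∧ In σ S F i x u := by
  constructor
  · rintro (rfl | ⟨i, hi, hi'⟩)
    · exact Or.inl rfl
    · exact Or.inr ⟨σ.st i, (h.star i u x).mpr hi, h.symm hi'⟩
  · rintro (rfl | ⟨i, hi, hi'⟩)
    · exact Or.inl rfl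
    · exact h.le_of_in' hi' hi

theorem tot (F : Finset M) (x y : M) (h1 : Pc σ S F x y) : Le σ S F x y ∨ Le σ S F y x := by
  rcases h1 with rfl | ⟨i, hi⟩
  · exact Or.inl (Or.inl rfl)
  by_cases h3 : Rl σ S i x y
  · exact Or.inl (h.le_of_in' hi h3)
  · exact Or.inr (h.le_of_in hi h3)

theorem pcsymm {F : Finset M} {x y : M} (h1 : Pc σ S F x y) : Pc σ S F y x := by
  rcases h1 with rfl | ⟨i, hi⟩
  · exact Or.inl rfl
  · exact Or.inr ⟨_, h.symm hi⟩

/-- the order inside a cell -/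
theorem in_cell {F : Finset M} {u v : M} (hc : Ce σ S F u v) (hle : Rl σ S σ.le u v)
    (hne : u ≠ v) : In σ S F σ.le v u ∧ ¬ Rl σ S σ.le v u := by
  have h3 : ¬ Rl σ S σ.le v u := fun h4 => hne (h.anti u v hle h4)
  refine ⟨?_, h3⟩
  rw [h.in_iff]
  intro w hw j
  refine ⟨fun h4 => ⟨v, h.refl v, fun h5 => h4 ((hc w hw j).mpr h5)⟩, fun h4 => ⟨u, h4, h3⟩⟩

theorem cell_le {F : Finset M} {u v : M} (hc : Ce σ S F u v) (hle : Rl σ S σ.le u v) :
    Le σ S F u v := by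
  by_cases hne : u = v
  · exact Or.inl hne
  · obtain ⟨h1, h2⟩ := h.in_cell hc hle hne
    exact Or.inr ⟨_, h2, h1⟩

omit h in
theorem ce_symm {F : Finset M} {u v : M} (hc : Ce σ S F u v) : Ce σ S F v u :=
  fun w hw i => (hc w hw i).symm

theorem cell (F : Finset M) (u v : M) (hc : Ce σ S F u v) : Pc σ S F u v := by
  rcases h.total u v with h1 | h1
  · rcases h.cell_le hc h1 with h2 | ⟨i, -, hi⟩
    · exact Or.inl h2
    · exact h.pcsymm (Or.inr ⟨i, hi⟩)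
  · rcases h.cell_le (ce_symm hc) h1 with h2 | ⟨i, -, hi⟩
    · exact Or.inl h2.symm
    · exact Or.inr ⟨i, hi⟩

/-- a relation which is not constant on a pair of cells is a link -/
theorem link {F : Finset M} {i : σ.ι} {u v u' v' : M} (hu : Ce σ S F u u')
    (hv : Ce σ S F v v') (h1 : ¬ Rl σ S i u v) (h2 : Rl σ S i u' v') : In σ S F i u v := by
  rw [h.in_iff]
  intro w hw j
  refine ⟨fun h3 => ?_, fun h3 => ?_⟩
  · have h4 : ¬ Rl σ S j w v' := fun h5 => h3 ((hv w hw j).mpr h5)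
    have h5 : Rl σ S (σ.cp i (σ.st j)) u' w := (h.cpL i j u' w).mpr ⟨v', h2, h4⟩
    have h6 : Rl σ S (σ.cp i (σ.st j)) u w := by
      by_contra h7
      have h8 := (h.star (σ.cp i (σ.st j)) u w).mpr h7
      exact (h.star (σ.cp i (σ.st j)) u' w).mp ((hu w hw _).mp h8) h5
    exact (h.cpL i j u w).mp h6
  · exact ⟨v, h3, h1⟩

theorem link' {F : Finset M} {i : σ.ι} {u v u' v' : M} (hu : Ce σ S F u u')
    (hv : Ce σ S F v v') (h1 : Rl σ S i u v) (h2 : ¬ Rl σ S i u' v') : In σ S F i u v :=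
  h.in_ce' (ce_symm hu) (h.in_ce (ce_symm hv) (h.link (ce_symm hu) (ce_symm hv) h2 h1))

theorem cross (F : Finset M) (u v u' v' : M) (hu : Ce σ S F u u') (hv : Ce σ S F v v')
    (h1 : ¬ Pc σ S F u v) (i : σ.ι) : Rl σ S i u v ↔ Rl σ S i u' v' := by
  by_contra h2
  by_cases h3 : Rl σ S i u v
  · have h4 : ¬ Rl σ S i u' v' := fun h5 => h2 ⟨fun _ => h5, fun _ => h3⟩
    exact h1 (Or.inr ⟨i, h.link' hu hv h3 h4⟩)
  · have h4 : Rl σ S i u' v' := by
      by_contra h5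
      exact h2 ⟨fun h6 => absurd h6 h3, fun h6 => absurd h6 h5⟩
    exact h1 (Or.inr ⟨i, h.link hu hv h3 h4⟩)

theorem cross' (F : Finset M) (u v u' v' : M) (hu : Ce σ S F u u') (hv : Ce σ S F v v')
    (h1 : Le σ S F u v) (h2 : ¬ Le σ S F v u) (h1' : Le σ S F u' v') (h2' : ¬ Le σ S F v' u')
    (i : σ.ι) : Rl σ S i u v ↔ Rl σ S i u' v' := by
  by_cases hi : In σ S F i u v
  · have hi' : In σ S F i u' v' := h.in_ce' hu (h.in_ce hv hi)
    have e1 : Rl σ S i u v := by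
      by_contra h3
      exact h2 (h.le_of_in hi h3)
    have e2 : Rl σ S i u' v' := by
      by_contra h3
      exact h2' (h.le_of_in hi' h3)
    exact ⟨fun _ => e2, fun _ => e1⟩
  · by_contra h3
    by_cases h4 : Rl σ S i u v
    · have h5 : ¬ Rl σ S i u' v' := fun h6 => h3 ⟨fun _ => h6, fun _ => h4⟩
      exact hi (h.link' hu hv h4 h5)
    · have h5 : Rl σ S i u' v' := by
        by_contra h6
        exact h3 ⟨fun h7 => absurd h7 h4, fun h7 => absurd h7 h6⟩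
      exact hi (h.link hu hv h4 h5)

/-- a point between two cuts which are inside the cell of `u` is in the cell of `u` -/
theorem btw {F : Finset M} {i k : σ.ι} {x y u u' : M} (h1 : In σ S F i x u)
    (h2 : In σ S F k y u) (h3 : ¬ Rl σ S i x u') (h4 : Rl σ S k y u') : Ce σ S F u u' := by
  rw [h.in_iff] at h1 h2
  intro w hw j
  constructor
  · intro h5
    obtain ⟨z, hz, hz'⟩ := (h2 w hw j).2 h5
    exact h.m2 hz (h.lt2 hz' h4)
  · intro h5
    by_contra h6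
    obtain ⟨z, hz, hz'⟩ := (h1 w hw j).1 h6
    exact h3 (h.m2 hz (h.lt2 hz' h5))

/-- two cuts of `x` around `u` -/
theorem two {F : Finset M} {x u : M} (hu : u ∈ Cl σ S F x) (hne : u ≠ x) :
    ∃ i k, In σ S F i x u ∧ In σ S F k x u ∧ ¬ Rl σ S i x u ∧ Rl σ S k x u := by
  obtain ⟨h1, h2⟩ := hu
  rcases h1 with h1 | ⟨i, hi, hi'⟩
  · exact absurd h1 hne
  rw [h.le_iff'] at h2
  rcases h2 with h2 | ⟨k, hk, hk'⟩
  · exact absurd h2.symm hne
  exact ⟨i, k, hi', hk', hi, hk⟩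

theorem mem_of_two {F : Finset M} {x u : M} {i k : σ.ι} (h1 : In σ S F i x u)
    (h2 : In σ S F k x u) (h3 : ¬ Rl σ S i x u) (h4 : Rl σ S k x u) : u ∈ Cl σ S F x :=
  ⟨h.le_of_in h1 h3, h.le_of_in' h2 h4⟩

theorem blk (F : Finset M) (x x' u u' : M) (hx : Ce σ S F x x') (hu : u ∈ Cl σ S F x)
    (hr : ∀ i, Rl σ S i x u ↔ Rl σ S i x' u') : u' ∈ Cl σ S F x' ∧ Ce σ S F u u' := by
  by_cases hne : u = x
  · subst hne
    have e1 : Rl σ S σ.le x' u' := (hr _).mp (h.refl u)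
    have e2 : Rl σ S σ.le u' x' := by
      by_contra h3
      have h4 := (h.star σ.le u' x').mpr h3
      exact (h.star σ.le u u).mp ((hr _).mpr h4) (h.refl u)
    have e3 := h.anti _ _ e1 e2
    subst e3
    exact ⟨⟨Or.inl rfl, Or.inl rfl⟩, hx⟩
  obtain ⟨i, k, hi, hk, hi', hk'⟩ := h.two hu hne
  have a1 : ¬ Rl σ S i x' u' := fun h3 => hi' ((hr i).mpr h3)
  have a2 : Rl σ S k x' u' := (hr k).mp hk'
  have b1 := h.in_ce' hx hi
  have b2 := h.in_ce' hx hk
  have hc : Ce σ S F u u' := h.btw b1 b2 a1 a2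
  exact ⟨h.mem_of_two (h.in_ce hc b1) (h.in_ce hc b2) a1 a2, hc⟩

theorem cl_symm {F : Finset M} {x u : M} (hu : u ∈ Cl σ S F x) : x ∈ Cl σ S F u :=
  ⟨hu.2, hu.1⟩

theorem cl_trans {F : Finset M} {x u v : M} (hu : u ∈ Cl σ S F x) (hv : v ∈ Cl σ S F u) :
    v ∈ Cl σ S F x := ⟨h.letr F _ _ _ hv.1 hu.1, h.letr F _ _ _ hu.2 hv.2⟩

/-- elements outside a cluster do not cut its blocks -/
theorem auto {F : Finset M} {z u u' v : M} (hu : u ∈ Cl σ S F z) (hu' : u' ∈ Cl σ S F z)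
    (hc : Ce σ S F u u') (hv : v ∉ Cl σ S F z) (i : σ.ι) :
    Rl σ S i u v ↔ Rl σ S i u' v := by
  by_contra h1
  have key : ∀ a b, a ∈ Cl σ S F z → b ∈ Cl σ S F z → Ce σ S F a b → ¬ Rl σ S i a v →
      Rl σ S i b v → False := by
    intro a b ha hb hab h2 h3
    have hi : In σ S F i a v := h.link hab (fun _ _ _ => Iff.rfl) h2 h3
    have hi' : In σ S F i b v := h.in_ce' hab hi
    have e1 : Le σ S F v a := h.le_of_in hi h2
    have e2 : Le σ S F b v := h.le_of_in' hi' h3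
    exact hv ⟨h.letr F _ _ _ e1 ha.1, h.letr F _ _ _ hb.2 e2⟩
  by_cases h2 : Rl σ S i u v
  · have h3 : ¬ Rl σ S i u' v := fun h4 => h1 ⟨fun _ => h4, fun _ => h2⟩
    exact key u' u hu' hu (ce_symm hc) h3 h2
  · have h3 : Rl σ S i u' v := by
      by_contra h4
      exact h1 ⟨fun h5 => absurd h5 h2, fun h5 => absurd h5 h4⟩
    exact key u u' hu hu' hc h2 h3

theorem w1 (F : Finset M) (z u u' : M) (hu : u ∈ Cl σ S F z) (hp : Pc σ S {z} u u') :
    u' ∈ Cl σ S F z := by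
  classical
  by_contra hu'
  rcases hp with rfl | ⟨t, ht⟩
  · exact hu' hu
  have hne : u ≠ z := by
    rintro rfl
    exact h.in_irr (Finset.mem_singleton_self _) ht
  obtain ⟨q, q1, hq, hq1, hq', hq1'⟩ := h.two hu hne
  rw [h.in_iff] at ht
  by_cases h1 : Rl σ S t u u'
  · -- upper side
    have h2 : ¬ Rl σ S (ca σ q t) z u' := by
      intro h3
      obtain ⟨y, hy, hy'⟩ := (ht z (Finset.mem_singleton_self _) _).2 h3
      rw [h.caR] at hy
      exact hy' (hy u hq')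
    rw [h.caR] at h2
    push Not at h2
    obtain ⟨x, hx, hx'⟩ := h2
    have hux : Rl σ S σ.le u x := h.lt1 hx' h1
    have hc : Ce σ S F u x := by
      intro w hw j
      constructor
      · intro h3
        exact h.m2 h3 hux
      · intro h3
        by_contra h4
        rw [h.in_iff] at hq
        obtain ⟨y, hy, hy'⟩ := (hq w hw j).1 h4
        exact hx (h.m2 hy (h.lt2 hy' h3))
    have hxz : x ∈ Cl σ S F z := by
      refine ⟨h.le_of_in (h.in_ce hc hq) hx, h.letr F _ _ _ hu.2 (h.cell_le hc hux)⟩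
    exact hx' ((h.auto hu hxz hc hu' t).mp h1)
  · -- lower side
    have h2 : Rl σ S (σ.cp q1 t) z u' := by
      by_contra h3
      obtain ⟨y, hy, hy'⟩ := (ht z (Finset.mem_singleton_self _) _).1 h3
      rw [h.comp] at hy'
      exact hy' ⟨u, hq1', hy⟩
    rw [h.comp] at h2
    obtain ⟨x, hx, hx'⟩ := h2
    have hxu : Rl σ S σ.le x u := h.lt1 h1 hx'
    have hc : Ce σ S F u x := by
      intro w hw j
      constructor
      · intro h3
        rw [h.in_iff] at hq1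
        obtain ⟨y, hy, hy'⟩ := (hq1 w hw j).2 h3
        exact h.m2 hy (h.lt2 hy' hx)
      · intro h3
        exact h.m2 h3 hxu
    have hxz : x ∈ Cl σ S F z := by
      refine ⟨h.letr F _ _ _ (h.cell_le (ce_symm hc) hxu) hu.1, ?_⟩
      exact h.le_of_in' (h.in_ce hc hq1) hx
    exact h1 ((h.auto hu hxz hc hu' t).mpr hx')

/-- two cuts of `u` around `x` -/
theorem two' {F : Finset M} {x u : M} (hu : u ∈ Cl σ S F x) (hne : u ≠ x) :
    ∃ i k, In σ S F i u x ∧ In σ S F k u x ∧ ¬ Rl σ S i u x ∧ Rl σ S k u x :=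
  h.two (h.cl_symm hu) (Ne.symm hne)

theorem lam (F F' : Finset M) (x u u' : M) (hu : u ∈ Cl σ S F x) (hu' : u' ∈ Cl σ S F' x) :
    u ∈ Cl σ S F' x ∨ u' ∈ Cl σ S F x := by
  by_contra hcon
  push Not at hcon
  obtain ⟨hn, hn'⟩ := hcon
  have hne : u ≠ x := by
    rintro rfl
    exact hn ⟨Or.inl rfl, Or.inl rfl⟩
  have hne' : u' ≠ x := by
    rintro rfl
    exact hn' ⟨Or.inl rfl, Or.inl rfl⟩
  -- half of the proof
  have key : ∀ (G G' : Finset M) (v : M), v ∈ Cl σ S G x → v ∉ Cl σ S G' x →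
      ∀ s r, In σ S G s v x → In σ S G r v x → ¬ Rl σ S s v x → Rl σ S r v x →
      ∀ z, z ∈ Cl σ S G' x → Ce σ S G' x z → z ∈ Cl σ S G x ∧ Ce σ S G x z ∧
        ¬ Rl σ S s v z ∧ Rl σ S r v z := by
    intro G G' v hv hvn s r hs hr hs' hr' z hz hxz
    have hxx : x ∈ Cl σ S G' x := ⟨Or.inl rfl, Or.inl rfl⟩
    have e : ∀ i, Rl σ S i v z ↔ Rl σ S i v x := by
      intro i
      have h1 := h.auto hxx hz hxz hvn (σ.st i)
      rw [h.star, h.star] at h1
      exact (not_iff_not.mp h1).symm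
    have a1 : ¬ Rl σ S s v z := fun h3 => hs' ((e s).mp h3)
    have a2 : Rl σ S r v z := (e r).mpr hr'
    have hc : Ce σ S G x z := h.btw hs hr a1 a2
    refine ⟨?_, hc, a1, a2⟩
    exact h.cl_trans hv (h.mem_of_two (h.in_ce hc hs) (h.in_ce hc hr) a1 a2)
  obtain ⟨s, r, hs, hr, hs', hr'⟩ := h.two' hu hne
  obtain ⟨s', r', hs1, hr1, hs1', hr1'⟩ := h.two' hu' hne'
  have k1 := key F F' u hu hn s r hs hr hs' hr'
  have k2 := key F' F u' hu' hn' s' r' hs1 hr1 hs1' hr1'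
  -- the upper cuts are equal
  have up : ∀ (G : Finset M) (v : M), v ∈ Cl σ S G x → ∀ s r, In σ S G s v x →
      In σ S G r v x → ¬ Rl σ S s v x → Rl σ S r v x → ∀ y, Rl σ S σ.le x y →
      ¬ Rl σ S s v y → y ∈ Cl σ S G x ∧ Ce σ S G x y := by
    intro G v hv s r hs hr hs' hr' y hy hy'
    have a2 : Rl σ S r v y := h.m2 hr' hy
    have hc : Ce σ S G x y := h.btw hs hr hy' a2
    exact ⟨h.cl_trans hv (h.mem_of_two (h.in_ce hc hs) (h.in_ce hc hr) hy' a2), hc⟩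
  have dn : ∀ (G : Finset M) (v : M), v ∈ Cl σ S G x → ∀ s r, In σ S G s v x →
      In σ S G r v x → ¬ Rl σ S s v x → Rl σ S r v x → ∀ y, Rl σ S σ.le y x →
      Rl σ S r v y → y ∈ Cl σ S G x ∧ Ce σ S G x y := by
    intro G v hv s r hs hr hs' hr' y hy hy'
    have a1 : ¬ Rl σ S s v y := fun h3 => hs' (h.m2 h3 hy)
    have hc : Ce σ S G x y := h.btw hs hr a1 hy'
    exact ⟨h.cl_trans hv (h.mem_of_two (h.in_ce hc hs) (h.in_ce hc hr) a1 hy'), hc⟩
  have eu : ∀ y, Rl σ S s u y ↔ Rl σ S s' u' y := by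
    intro y
    rcases h.total x y with hy | hy
    · constructor
      · intro h1
        by_contra h2
        obtain ⟨h3, h4⟩ := up F' u' hu' s' r' hs1 hr1 hs1' hr1' y hy h2
        exact (k1 y h3 h4).2.2.1 h1
      · intro h1
        by_contra h2
        obtain ⟨h3, h4⟩ := up F u hu s r hs hr hs' hr' y hy h2
        exact (k2 y h3 h4).2.2.1 h1
    · constructor
      · intro h1
        exact absurd (h.m2 h1 hy) hs'
      · intro h1
        exact absurd (h.m2 h1 hy) hs1'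
  have ed : ∀ y, Rl σ S r u y ↔ Rl σ S r' u' y := by
    intro y
    rcases h.total x y with hy | hy
    · exact ⟨fun _ => h.m2 hr1' hy, fun _ => h.m2 hr' hy⟩
    · constructor
      · intro h1
        obtain ⟨h3, h4⟩ := dn F u hu s r hs hr hs' hr' y hy h1
        exact (k2 y h3 h4).2.2.2
      · intro h1
        obtain ⟨h3, h4⟩ := dn F' u' hu' s' r' hs1 hr1 hs1' hr1' y hy h1
        exact (k1 y h3 h4).2.2.2
  have i1 : In σ S F s' u' x := h.in_cut eu hs
  have i2 : In σ S F r' u' x := h.in_cut ed hr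
  exact hn' (h.cl_symm (h.mem_of_two i1 i2 hs1' hr1'))

/-- points between `u` and a cut of `y` which is inside the cell of `u` -/
theorem up_mem {F : Finset M} {y u x : M} {s : σ.ι} (hu : u ∈ Cl σ S F y) (hs : In σ S F s y u)
    (h1 : ¬ Rl σ S s y x) (h2 : Rl σ S σ.le u x) : x ∈ Cl σ S F y ∧ Ce σ S F u x := by
  have hc : Ce σ S F u x := by
    intro w hw j
    constructor
    · intro h3
      exact h.m2 h3 h2
    · intro h3
      by_contra h4
      rw [h.in_iff] at hs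
      obtain ⟨v, hv, hv'⟩ := (hs w hw j).1 h4
      exact h1 (h.m2 hv (h.lt2 hv' h3))
  exact ⟨⟨h.le_of_in (h.in_ce hc hs) h1, h.letr F _ _ _ hu.2 (h.cell_le hc h2)⟩, hc⟩

theorem dn_mem {F : Finset M} {y u x : M} {q : σ.ι} (hu : u ∈ Cl σ S F y) (hq : In σ S F q y u)
    (h1 : Rl σ S q y x) (h2 : Rl σ S σ.le x u) : x ∈ Cl σ S F y ∧ Ce σ S F u x := by
  have hc : Ce σ S F u x := by
    intro w hw j
    constructor
    · intro h3
      rw [h.in_iff] at hq
      obtain ⟨v, hv, hv'⟩ := (hq w hw j).2 h3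
      exact h.m2 hv (h.lt2 hv' h1)
    · intro h3
      exact h.m2 h3 h2
  exact ⟨⟨h.letr F _ _ _ (h.cell_le (ce_symm hc) h2) hu.1, h.le_of_in' (h.in_ce hc hq) h1⟩, hc⟩

theorem deepc (F : Finset M) (z y y' x x' : M) (hy : y ∈ Cl σ S F z) (hy' : y' ∈ Cl σ S F z)
    (hx : x ∉ Cl σ S F z) (hx' : x' ∉ Cl σ S F z) (hc : Ce σ S {y} x x') : Ce σ S {y'} x x' := by
  have key : ∀ a b, a ∉ Cl σ S F z → b ∉ Cl σ S F z → Ce σ S {y} a b → ∀ j,
      ¬ Rl σ S j y' a → Rl σ S j y' b → False := by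
    intro a b ha hb hab j h1 h2
    by_cases hne : y' = y
    · subst hne
      exact h1 ((hab _ (Finset.mem_singleton_self _) j).mpr h2)
    have hyy : y' ∈ Cl σ S F y := h.cl_trans (h.cl_symm hy) hy'
    obtain ⟨s, q, hs, hq, hs', hq'⟩ := h.two hyy hne
    have h3 : ¬ Rl σ S (ca σ s j) y a := by
      rw [h.caR]
      exact fun h4 => h1 (h4 y' hs')
    have h4 : ¬ Rl σ S (ca σ s j) y b := fun h5 =>
      h3 ((hab _ (Finset.mem_singleton_self _) _).mpr h5)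
    rw [h.caR] at h4
    push Not at h4
    obtain ⟨u, hu, hu'⟩ := h4
    obtain ⟨h5, h6⟩ := h.up_mem hyy hs hu (h.lt1 hu' h2)
    exact hu' ((h.auto hy' (h.cl_trans hy h5) h6 hb j).mp h2)
  intro w hw j
  rw [Finset.mem_singleton] at hw
  subst hw
  constructor
  · intro h1
    by_contra h2
    exact key x' x hx' hx (ce_symm hc) j h2 h1
  · intro h1
    by_contra h2
    exact key x x' hx hx' hc j h2 h1

theorem deep (F : Finset M) (z y y' x' : M) (i : σ.ι) (x : M) (hy : y ∈ Cl σ S F z)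
    (hy' : y' ∈ Cl σ S F z) (hx' : x' ∉ Cl σ S F z) (hi : In σ S {y} i x x') :
    In σ S {y'} i x x' := by
  by_cases hne : y' = y
  · subst hne
    exact hi
  have hyy : y' ∈ Cl σ S F y := h.cl_trans (h.cl_symm hy) hy'
  obtain ⟨s, q, hs, hq, hs', hq'⟩ := h.two hyy hne
  rw [h.in_iff] at hi ⊢
  intro w hw j
  rw [Finset.mem_singleton] at hw
  subst hw
  refine ⟨fun h1 => ?_, fun h1 => ?_⟩
  · by_contra h2
    push Not at h2
    have h3 : Rl σ S (σ.cp q j) y x' := by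
      by_contra h4
      obtain ⟨v, hv, hv'⟩ := (hi y (Finset.mem_singleton_self _) _).1 h4
      rw [h.comp] at hv'
      exact hv' ⟨w, hq', h2 v hv⟩
    rw [h.comp] at h3
    obtain ⟨u, hu, hu'⟩ := h3
    obtain ⟨h5, h6⟩ := h.dn_mem hyy hq hu (h.lt1 h1 hu')
    exact h1 ((h.auto hy' (h.cl_trans hy h5) h6 hx' j).mpr hu')
  · by_contra h2
    push Not at h2
    have h3 : ¬ Rl σ S (ca σ s j) y x' := by
      intro h4
      obtain ⟨v, hv, hv'⟩ := (hi y (Finset.mem_singleton_self _) _).2 h4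
      rw [h.caR] at hv
      exact hv' (h2 v (hv w hs'))
    rw [h.caR] at h3
    push Not at h3
    obtain ⟨u, hu, hu'⟩ := h3
    obtain ⟨h5, h6⟩ := h.up_mem hyy hs hu (h.lt1 hu' h1)
    exact hu' ((h.auto hy' (h.cl_trans hy h5) h6 hx' j).mp h1)

/-- **Monotone relations form a cluster system.** -/
theorem cx : Cx σ S where
  star := h.star
  full := h.full
  irr i w h1 := by
    obtain ⟨y, hy, hy'⟩ := (h.cpL i i w w).mp h1
    exact hy' hy
  cell := h.cell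
  symm F i x u h1 := h.symm h1
  pctr := h.pctr
  letr := h.letr
  tot := h.tot
  cross F u v u' v' hu hv h1 i := h.cross F u v u' v' hu hv h1 i
  cross' F u v u' v' hu hv h1 h2 h3 h4 i := h.cross' F u v u' v' hu hv h1 h2 h3 h4 i
  blk := h.blk
  w1 := h.w1
  lam := h.lam
  deep F z y y' x' i x hy hy' hx' hi := h.deep F z y y' x' i x hy hy' hx' hi
  deepc F z y y' x x' hy hy' hx hx' hc := h.deepc F z y y' x x' hy hy' hx hx' hc

end Mon

end Pool.Agent.MON
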