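import Pool.Agent.MON.Ax
import Pool.Agent.Helper52.VCM.VI
import Pool.Agent.Helper22.VCM.C2bT
import Pool.Agent.Helper79.VCM.Flip
import Pool.Agent.Helper6.VC.UFinal
import Mathlib.Tactic.DeriveCountable

/-!
# Convex relations with monotone ends: the language of words
-/

set_option autoImplicit false
set_option linter.unusedSectionVars false
set_option linter.unusedVariables false
set_option warn.classDefReducibility false

namespace Pool.Agent.MON

open Set Pool.Agent.Helper5 Pool.Agent.Helper5.DU Pool.Agent.Helper6.Str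
  Pool.Agent.Helper79.VC Pool.Agent.Helper97.VC Pool.Agent.Helper97.MD Pool.Agent.Helper6.VC
  Pool.Agent.Helper97.LO

variable {L : FirstOrder.Language.{0, 0}} {M N : Type}

/-! ### convex relations with monotone ends -/

/-- `R` is a relation with convex fibres whose ends move upwards. -/
def ConvMono (le R : M → M → Prop) : Prop :=
  (∀ x y z t, R x y → R x t → le y z → le z t → R x z) ∧
  ∀ x x' y y', le x x' → R x y → R x' y' →
    (∃ t, R x' t ∧ le y t) ∧ ∃ t, R x t ∧ le t y'

/-- the lower ends -/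
def loE (le R : M → M → Prop) (x y : M) : Prop := ∃ s, le x s ∧ ∃ t, le t y ∧ R s t

/-- the upper ends -/
def upE (le R : M → M → Prop) (x y : M) : Prop := ¬ ∃ s, le s x ∧ ∃ t, le y t ∧ R s t

theorem convMono_iff {le R : M → M → Prop} (h : ConvMono le R) (hr : ∀ x, le x x)
    (ht : ∀ x y z, le x y → le y z → le x z)
    {x : M} (hx : ∃ y, R x y) (y : M) : R x y ↔ loE le R x y ∧ ¬ upE le R x y := by
  constructor
  · intro h1
    exact ⟨⟨x, hr x, y, hr y, h1⟩, fun h2 => h2 ⟨x, hr x, y, hr y, h1⟩⟩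
  · rintro ⟨⟨s, hs, t, ht', h1⟩, h2⟩
    obtain ⟨s', hs', t', ht'', h3⟩ := not_not.mp h2
    obtain ⟨y0, hy0⟩ := hx
    obtain ⟨-, t1, h4, h5⟩ := h.2 x s y0 t hs hy0 h1
    obtain ⟨⟨t2, h6, h7⟩, -⟩ := h.2 s' x t' y0 hs' h3 hy0
    exact h.1 x t1 y t2 h4 h6 (ht _ _ _ h5 ht') (ht _ _ _ ht'' h7)

/-! ### words -/

/-- names for the relations obtained from the ends by duals and compositions -/
inductive Wd : Type
  | le : Wd
  | base (b : Bool) (n : ℕ) : Wd
  | st (w : Wd) : Wd
  | cp (w w' : Wd) : Wd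
  deriving Countable

/-- the relation named by a word -/
def wrel (le : M → M → Prop) (R : ℕ → M → M → Prop) : Wd → M → M → Prop
  | .le => le
  | .base true n => loE le (R n)
  | .base false n => upE le (R n)
  | .st w => fun x y => ¬ wrel le R w y x
  | .cp w w' => fun x y => ∃ z, wrel le R w x z ∧ wrel le R w' z y

theorem wrel_mono {le : M → M → Prop} {R : ℕ → M → M → Prop} (hr : ∀ x, le x x)
    (ht : ∀ x y z, le x y → le y z → le x z) (w : Wd) :
    ∀ x' x y y', le x' x → wrel le R w x y → le y y' → wrel le R w x' y' := by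
  induction w with
  | le => intro x' x y y' h1 h2 h3; exact ht _ _ _ h1 (ht _ _ _ h2 h3)
  | base b n =>
    cases b with
    | true =>
      rintro x' x y y' h1 ⟨s, hs, t, ht', h4⟩ h3
      exact ⟨s, ht _ _ _ h1 hs, t, ht _ _ _ ht' h3, h4⟩
    | false =>
      rintro x' x y y' h1 h2 h3 ⟨s, hs, t, ht', h4⟩
      exact h2 ⟨s, ht _ _ _ hs h1, t, ht _ _ _ h3 ht', h4⟩
  | st w ih =>
    intro x' x y y' h1 h2 h3 h4
    exact h2 (ih _ _ _ _ h3 h4 h1)
  | cp w w' ih ih' =>
    rintro x' x y y' h1 ⟨z, h2, h2'⟩ h3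
    exact ⟨z, ih _ _ _ _ h1 h2 (hr z), ih' _ _ _ _ (hr z) h2' h3⟩

/-- relation symbols -/
def WR : ℕ → Type
  | 1 => ℕ ⊕ ℕ
  | 2 => Wd
  | _ => Empty

/-- the language of words -/
def LW : FirstOrder.Language.{0, 0} := ⟨fun _ => Empty, WR⟩

instance (n : ℕ) : IsEmpty (LW.Functions n) := inferInstanceAs (IsEmpty Empty)

instance (n : ℕ) : Countable (LW.Relations n) := by
  show Countable (WR n)
  match n with
  | 0 => exact inferInstanceAs (Countable Empty)
  | 1 => exact inferInstanceAs (Countable (ℕ ⊕ ℕ))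
  | 2 => exact inferInstanceAs (Countable Wd)
  | (n + 3) => exact inferInstanceAs (Countable Empty)

theorem lw_ar2 : Ar2 LW := by
  intro n h1 h2
  show IsEmpty (WR n)
  match n with
  | 0 => exact inferInstanceAs (IsEmpty Empty)
  | 1 => exact absurd rfl h1
  | 2 => exact absurd rfl h2
  | (n + 3) => exact inferInstanceAs (IsEmpty Empty)

/-- the signature of words -/
def sW : Sig LW where
  ι := Wd
  sy := fun w => w
  st := .st
  cp := .cp
  le := .le

/-- the relations of the structure of words -/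
def wRel (le : M → M → Prop) (R : ℕ → M → M → Prop) (U : ℕ → M → Prop) :
    (n : ℕ) → WR n → (Fin n → M) → Prop
  | 1, .inl k, v => U k (v 0)
  | 1, .inr k, v => ∃ y, R k (v 0) y
  | 2, w, v => wrel le R w (v 0) (v 1)
  | 0, r, _ => r.elim
  | (_ + 3), r, _ => r.elim

/-- the structure of words -/
def wS (le : M → M → Prop) (R : ℕ → M → M → Prop) (U : ℕ → M → Prop) : LW.Structure M where
  funMap := fun f _ => Empty.elim f
  RelMap := fun {n} r v => wRel le R U n r v

variable {le : M → M → Prop} {R : ℕ → M → M → Prop} {U : ℕ → M → Prop}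
  {le' : N → N → Prop} {R' : ℕ → N → N → Prop} {U' : ℕ → N → Prop}

theorem rl_wS (w : Wd) (x y : M) : Rl sW (wS le R U) w x y ↔ wrel le R w x y := Iff.rfl

/-- atomic equivalence of structures of words -/
theorem atEq_wS {p : Set (M × N)} : AtEq (wS le R U) (wS le' R' U') p ↔
    (∀ a ∈ p, ∀ b ∈ p, a.1 = b.1 ↔ a.2 = b.2) ∧
    (∀ a ∈ p, ∀ k, U k a.1 ↔ U' k a.2) ∧
    (∀ a ∈ p, ∀ k, (∃ y, R k a.1 y) ↔ ∃ y, R' k a.2 y) ∧
    ∀ a ∈ p, ∀ b ∈ p, ∀ w, wrel le R w a.1 b.1 ↔ wrel le' R' w a.2 b.2 := by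
  constructor
  · rintro ⟨h1, h2⟩
    refine ⟨h1, fun a ha k => ?_, fun a ha k => ?_, fun a ha b hb w => ?_⟩
    · exact h2 1 (Sum.inl k) (fun _ => a) (fun _ => ha)
    · exact h2 1 (Sum.inr k) (fun _ => a) (fun _ => ha)
    · have := h2 2 w (![a, b]) (fun i => by
        match i with
        | 0 => exact ha
        | 1 => exact hb)
      exact this
  · rintro ⟨h1, h2, h3, h4⟩
    refine ⟨h1, fun n r v hv => ?_⟩
    match n, r with
    | 0, r => exact r.elim
    | 1, .inl k => exact h2 _ (hv 0) k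
    | 1, .inr k => exact h3 _ (hv 0) k
    | 2, w => exact h4 _ (hv 0) _ (hv 1) w
    | (_ + 3), r => exact r.elim

/-- structures of words of linear orders are structures with monotone relations -/
theorem mon_wS (hr : ∀ x, le x x) (ha : ∀ x y, le x y → le y x → x = y)
    (ht : ∀ x y z, le x y → le y z → le x z) (hto : ∀ x y, le x y ∨ le y x) :
    Mon sW (wS le R U) where
  refl := hr
  anti := ha
  trans := ht
  total := hto
  mono i x' x y y' h1 h2 h3 := wrel_mono hr ht i x' x y y' h1 h2 h3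
  star i x y := Iff.rfl
  comp i j x y := Iff.rfl
  full a b a' b' h1 h2 h3 := by
    have h4 : ∀ w, wrel le R w b a ↔ wrel le R w b' a' := by
      intro w
      exact not_iff_not.mp (h3 (.st w))
    have h5 : a = b ↔ a' = b' := by
      have e1 : ∀ c d, c = d ↔ le c d ∧ le d c := fun c d =>
        ⟨fun h => h ▸ ⟨hr c, hr c⟩, fun h => ha _ _ h.1 h.2⟩
      rw [e1 a b, e1 a' b']
      exact and_congr (h3 .le) (h4 .le)
    rw [atEq_wS] at h1 h2 ⊢
    refine ⟨?_, ?_, ?_, ?_⟩
    · rintro x (rfl | rfl) y (rfl | rfl)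
      · simp
      · exact h5
      · exact ⟨fun h => (h5.mp h.symm).symm, fun h => (h5.mpr h.symm).symm⟩
      · simp
    · rintro x (rfl | rfl)
      · exact h1.2.1 _ rfl
      · exact h2.2.1 _ rfl
    · rintro x (rfl | rfl)
      · exact h1.2.2.1 _ rfl
      · exact h2.2.2.1 _ rfl
    · rintro x (rfl | rfl) y (rfl | rfl)
      · exact h1.2.2.2 _ rfl _ rfl
      · exact h3
      · exact h4
      · exact h2.2.2.2 _ rfl _ rfl

end Pool.Agent.MON
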