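import Pool.Agent.MON.FINa

/-!
# Convex relations with monotone ends: definability, reflection, interpretation
-/

set_option autoImplicit false
set_option linter.unusedSectionVars false
set_option linter.unusedVariables false
set_option warn.classDefReducibility false

namespace Pool.Agent.MON

open Set Pool.Agent.Helper5 Pool.Agent.Helper5.DU Pool.Agent.Helper6.Str
  Pool.Agent.Helper79.VC Pool.Agent.Helper97.VC Pool.Agent.Helper97.MD Pool.Agent.Helper6.VC
  Pool.Agent.Helper97.LO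

variable {L : FirstOrder.Language.{0, 0}} {M N : Type}

/-! ### satisfaction -/

theorem sat_of_bfr {S : L.Structure M} {S' : L.Structure N} {n : ℕ} (φ : FmI L n)
    {γ : Ordinal.{0}} (hγ : ordOf (rk φ) ≤ γ) {p : Set (M × N)} (h : BFR S S' univ univ γ p)
    (v : Fin n → M) (v' : Fin n → N) (hv : ∀ i, (v i, v' i) ∈ p) : Sat S φ v ↔ Sat S' φ v' := by
  refine sat_of_BF φ v v' (BFR.bf (rk φ) (BFR.anti ?_ (h.mono hγ)))
  rintro _ ⟨i, rfl⟩
  exact hv i

theorem sat1_of_bfr {S : L.Structure M} {S' : L.Structure N} (φ : FmI L 1)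
    {γ : Ordinal.{0}} (hγ : ordOf (rk φ) ≤ γ) {p : Set (M × N)} (h : BFR S S' univ univ γ p)
    {x : M} {x' : N} (hx : (x, x') ∈ p) : Sat S φ ![x] ↔ Sat S' φ ![x'] := by
  refine sat_of_bfr φ hγ h _ _ fun i => ?_
  match i with
  | 0 => exact hx

theorem sat2_of_bfr {S : L.Structure M} {S' : L.Structure N} (φ : FmI L 2)
    {γ : Ordinal.{0}} (hγ : ordOf (rk φ) ≤ γ) {p : Set (M × N)} (h : BFR S S' univ univ γ p)
    {x y : M} {x' y' : N} (hx : (x, x') ∈ p) (hy : (y, y') ∈ p) :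
    Sat S φ ![x, y] ↔ Sat S' φ ![x', y'] := by
  refine sat_of_bfr φ hγ h _ _ fun i => ?_
  match i with
  | 0 => exact hx
  | 1 => exact hy

/-! ### the hypotheses -/

/-- the relation of a formula -/
def rl2 (S : L.Structure M) (φ : FmI L 2) (x y : M) : Prop := Sat S φ ![x, y]

/-- the predicate of a formula -/
def rl1 (S : L.Structure M) (φ : FmI L 1) (x : M) : Prop := Sat S φ ![x]

/-- The formula `lam` defines a linear order, the formulas `R n` define convex relations with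
monotone ends, and the atomic facts are determined by them and the predicates `U n`. -/
structure MonDef (lam : FmI L 2) (R : ℕ → FmI L 2) (U : ℕ → FmI L 1) (S : L.Structure M) :
    Prop where
  refl : ∀ x, rl2 S lam x x
  anti : ∀ x y, rl2 S lam x y → rl2 S lam y x → x = y
  trans : ∀ x y z, rl2 S lam x y → rl2 S lam y z → rl2 S lam x z
  total : ∀ x y, rl2 S lam x y ∨ rl2 S lam y x
  conv : ∀ n, ConvMono (rl2 S lam) (rl2 S (R n))
  atom : ∀ (n : ℕ) (r : L.Relations n) (v w : Fin n → M),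
    (∀ i k, rl1 S (U k) (v i) ↔ rl1 S (U k) (w i)) →
    (∀ i j, rl2 S lam (v i) (v j) ↔ rl2 S lam (w i) (w j)) →
    (∀ i j k, rl2 S (R k) (v i) (v j) ↔ rl2 S (R k) (w i) (w j)) →
    (S.RelMap r v ↔ S.RelMap r w)

section

variable (lam : FmI L 2) (R : ℕ → FmI L 2) (U : ℕ → FmI L 1)

/-- the structure of words of `S` -/
def wSt (S : L.Structure M) : LW.Structure M :=
  wS (rl2 S lam) (fun n => rl2 S (R n)) fun n => rl1 S (U n)

/-- the rank of a word -/
noncomputable def wrk : Wd → Ordinal.{0}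
  | .le => ordOf (rk lam)
  | .base _ n => max (ordOf (rk lam)) (ordOf (rk (R n))) + 1 + 1
  | .st w => wrk w
  | .cp w w' => max (wrk w) (wrk w') + 1

theorem wrk_lt (w : Wd) : wrk lam R w < om1 := by
  induction w with
  | le => exact ordOf_lt _
  | base b n => exact add_one_lt_om1 (add_one_lt_om1 (max_lt (ordOf_lt _) (ordOf_lt _)))
  | st w ih => exact ih
  | cp w w' ih ih' => exact add_one_lt_om1 (max_lt ih ih')

variable {lam R U} {S : L.Structure M} {S' : L.Structure N}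

private theorem ex_bfr {γ β : Ordinal.{0}} (hβ : β < γ) {p : Set (M × N)}
    (h : BFR S S' univ univ γ p) {A : M → Prop} {B : N → Prop}
    (hAB : ∀ z z', BFR S S' univ univ β (insert (z, z') p) → (A z ↔ B z')) :
    (∃ z, A z) ↔ ∃ z, B z := by
  constructor
  · rintro ⟨z, hz⟩
    obtain ⟨z', -, h'⟩ := h.forth hβ (mem_univ z)
    exact ⟨z', (hAB _ _ h').mp hz⟩
  · rintro ⟨z', hz⟩
    obtain ⟨z, -, h'⟩ := h.back hβ (mem_univ z')
    exact ⟨z, (hAB _ _ h').mpr hz⟩

theorem bfr_wrel (w : Wd) : ∀ {γ : Ordinal.{0}}, wrk lam R w ≤ γ → ∀ {p : Set (M × N)},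
    BFR S S' univ univ γ p → ∀ {x y : M} {x' y' : N}, (x, x') ∈ p → (y, y') ∈ p →
    (wrel (rl2 S lam) (fun n => rl2 S (R n)) w x y ↔
      wrel (rl2 S' lam) (fun n => rl2 S' (R n)) w x' y') := by
  induction w with
  | le => intro γ hγ p h x y x' y' hx hy; exact sat2_of_bfr lam hγ h hx hy
  | base b n =>
    intro γ hγ p h x y x' y' hx hy
    set δ := max (ordOf (rk lam)) (ordOf (rk (R n))) with hδ
    have h1 : δ + 1 < γ := lt_of_lt_of_le (lt_add_one_self _) hγ
    have h2 : δ < δ + 1 := lt_add_one_self δ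
    have i1 : ordOf (rk lam) ≤ δ := le_max_left _ _
    have i2 : ordOf (rk (R n)) ≤ δ := le_max_right _ _
    cases b with
    | true =>
      show (∃ s, rl2 S lam x s ∧ ∃ t, rl2 S lam t y ∧ rl2 S (R n) s t) ↔
        ∃ s, rl2 S' lam x' s ∧ ∃ t, rl2 S' lam t y' ∧ rl2 S' (R n) s t
      refine ex_bfr h1 h fun s s' hs => ?_
      refine and_congr (sat2_of_bfr lam (i1.trans h2.le) hs (mem_insert_of_mem _ hx)
        (mem_insert _ _)) (ex_bfr h2 hs fun t t' ht => ?_)
      exact and_congr (sat2_of_bfr lam i1 ht (mem_insert _ _)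
        (mem_insert_of_mem _ (mem_insert_of_mem _ hy)))
        (sat2_of_bfr (R n) i2 ht (mem_insert_of_mem _ (mem_insert _ _)) (mem_insert _ _))
    | false =>
      show (¬ ∃ s, rl2 S lam s x ∧ ∃ t, rl2 S lam y t ∧ rl2 S (R n) s t) ↔
        ¬ ∃ s, rl2 S' lam s x' ∧ ∃ t, rl2 S' lam y' t ∧ rl2 S' (R n) s t
      refine not_congr (ex_bfr h1 h fun s s' hs => ?_)
      refine and_congr (sat2_of_bfr lam (i1.trans h2.le) hs (mem_insert _ _)
        (mem_insert_of_mem _ hx)) (ex_bfr h2 hs fun t t' ht => ?_)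
      exact and_congr (sat2_of_bfr lam i1 ht (mem_insert_of_mem _ (mem_insert_of_mem _ hy))
        (mem_insert _ _))
        (sat2_of_bfr (R n) i2 ht (mem_insert_of_mem _ (mem_insert _ _)) (mem_insert _ _))
  | st w ih =>
    intro γ hγ p h x y x' y' hx hy
    exact not_congr (ih hγ h hy hx)
  | cp w w' ih ih' =>
    intro γ hγ p h x y x' y' hx hy
    have h1 : max (wrk lam R w) (wrk lam R w') < γ := lt_of_lt_of_le (lt_add_one_self _) hγ
    refine ex_bfr h1 h fun z z' hz => ?_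
    exact and_congr (ih (le_max_left _ _) hz (mem_insert_of_mem _ hx) (mem_insert _ _))
      (ih' (le_max_right _ _) hz (mem_insert _ _) (mem_insert_of_mem _ hy))

/-- a countable level at which all words are preserved -/
theorem exists_wlev (lam : FmI L 2) (R : ℕ → FmI L 2) (U : ℕ → FmI L 1) :
    ∃ η < om1, ordOf (rk lam) ≤ η ∧ (∀ n, ordOf (rk (R n)) ≤ η) ∧ (∀ n, ordOf (rk (U n)) ≤ η) ∧
      (∀ n, ordOf (rk (R n)) + 1 ≤ η) ∧ ∀ w, wrk lam R w ≤ η := by
  obtain ⟨α, hα, h1⟩ := exists_bound (wrk_lt lam R)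
  obtain ⟨β, hβ, h2⟩ := exists_bound (f := fun n => ordOf (rk (U n))) fun n => ordOf_lt _
  obtain ⟨γ, hγ, h3⟩ := exists_bound (f := fun n => ordOf (rk (R n)) + 1)
    fun n => add_one_lt_om1 (ordOf_lt _)
  refine ⟨max α (max β γ), max_lt hα (max_lt hβ hγ), ?_, ?_, ?_, ?_, ?_⟩
  · exact (h1 .le).trans (le_max_left _ _)
  · exact fun n => (lt_add_one_self _).le.trans ((h3 n).trans
      ((le_max_right _ _).trans (le_max_right _ _)))
  · exact fun n => (h2 n).trans ((le_max_left _ _).trans (le_max_right _ _))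
  · exact fun n => (h3 n).trans ((le_max_right _ _).trans (le_max_right _ _))
  · exact fun w => (h1 w).trans (le_max_left _ _)

/-! ### the interpretation -/

section

variable {lam : FmI L 2} {R : ℕ → FmI L 2} {U : ℕ → FmI L 1} {S : L.Structure M}

theorem atEq_of_atEq_wSt (h : MonDef lam R U S) {p : Set (M × M)}
    (hp : AtEq (wSt lam R U S) (wSt lam R U S) p) : AtEq S S p := by
  unfold wSt at hp
  rw [atEq_wS] at hp
  obtain ⟨h1, h2, h3, h4⟩ := hp
  have key : ∀ a ∈ p, ∀ b ∈ p, ∀ k, rl2 S (R k) a.1 b.1 → rl2 S (R k) a.2 b.2 := by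
    intro a ha b hb k hk
    obtain ⟨h5, h6⟩ := (convMono_iff (h.conv k) h.refl h.trans ⟨_, hk⟩ b.1).mp hk
    refine (convMono_iff (h.conv k) h.refl h.trans ((h3 a ha k).mp ⟨_, hk⟩) b.2).mpr ?_
    exact ⟨(h4 a ha b hb (.base true k)).mp h5, fun h7 =>
      h6 ((h4 a ha b hb (.base false k)).mpr h7)⟩
  have key' : ∀ a ∈ p, ∀ b ∈ p, ∀ k, rl2 S (R k) a.2 b.2 → rl2 S (R k) a.1 b.1 := by
    intro a ha b hb k hk
    obtain ⟨h5, h6⟩ := (convMono_iff (h.conv k) h.refl h.trans ⟨_, hk⟩ b.2).mp hk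
    refine (convMono_iff (h.conv k) h.refl h.trans ((h3 a ha k).mpr ⟨_, hk⟩) b.1).mpr ?_
    exact ⟨(h4 a ha b hb (.base true k)).mpr h5, fun h7 =>
      h6 ((h4 a ha b hb (.base false k)).mp h7)⟩
  refine ⟨h1, fun n r v hv => ?_⟩
  refine h.atom n r _ _ (fun i k => h2 _ (hv i) k) (fun i j => ?_) fun i j k => ?_
  · exact h4 _ (hv i) _ (hv j) .le
  · exact ⟨key _ (hv i) _ (hv j) k, key' _ (hv i) _ (hv j) k⟩

theorem bfr_of_bfr_wSt (h : MonDef lam R U S) (γ : Ordinal.{0}) : ∀ {p : Set (M × M)},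
    BFR (wSt lam R U S) (wSt lam R U S) univ univ γ p → BFR S S univ univ γ p := by
  induction γ using WellFoundedLT.induction with
  | _ γ ih =>
    intro p hp
    rw [BFR.def]
    refine ⟨atEq_of_atEq_wSt h hp.atEq, fun β hβ => ⟨fun x _ => ?_, fun y _ => ?_⟩⟩
    · obtain ⟨y, -, hy⟩ := hp.forth hβ (mem_univ x)
      exact ⟨y, mem_univ _, ih β hβ hy⟩
    · obtain ⟨x, -, hx⟩ := hp.back hβ (mem_univ y)
      exact ⟨x, mem_univ _, ih β hβ hx⟩

theorem not_noCtblType_of_wSt (h : MonDef lam R U S) (ht : TameX (wSt lam R U S) univ) :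
    ¬ NoCtblType S := by
  intro hN
  refine not_noCtblType ht ?_
  rintro ⟨A, hA, hA'⟩
  refine hN ⟨A, hA, fun F hF c => ?_⟩
  obtain ⟨d, hd, hd'⟩ := hA' F hF c
  exact ⟨d, hd, fun γ hγ => bfr_of_bfr_wSt h γ (hd' γ hγ)⟩

variable [∀ n, IsEmpty (L.Functions n)] [∀ n, Countable (L.Relations n)]
  {K : Set (L.Structure ℕ)} {δ : Ordinal.{0}}

theorem vst_wSt (hS : VSt K δ S) (h : MonDef lam R U S) :
    ∃ (K' : Set (LW.Structure ℕ)) (δ' : Ordinal.{0}), VSt K' δ' (wSt lam R U S) := by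
  have : Infinite M := infinite_of_lev hS.lev
  obtain ⟨η, hη, e1, e2, e3, e4, e5⟩ := exists_wlev lam R U
  refine VSt.interp hS id Function.injective_id ∅ hη (fun c c' _ => by simp) ?_ ?_
  · intro p _ hb
    have hb' : BFR S S univ univ η p := BFR.anti (fun a ha => Or.inl ⟨a, ha, rfl⟩) hb
    unfold wSt
    rw [atEq_wS]
    refine ⟨hb'.atEq.1, fun a ha k => ?_, fun a ha k => ?_, fun a ha b hb w => ?_⟩
    · exact sat1_of_bfr (U k) (e3 k) hb' ha
    · refine ex_bfr (lt_of_lt_of_le (lt_add_one_self _) (e4 k)) hb' fun z z' hz => ?_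
      exact sat2_of_bfr (R k) le_rfl hz (mem_insert_of_mem _ ha) (mem_insert _ _)
    · exact bfr_wrel w (e5 w) hb' ha hb
  · intro p _ hp G hG
    have hG' : G = ∅ := by
      ext g
      simp only [mem_empty_iff_false, iff_false]
      exact fun hg => hG g hg ⟨g, rfl⟩
    subst hG'
    have e : ((fun a : M × M => (id a.1, id a.2)) '' p ∪ dg (∅ : Set M)) = p := by
      simp [dg]
    rw [e]
    exact atEq_of_atEq_wSt h hp

/-! ### reflection -/

private theorem refl_tuple {K : Set (L.Structure ℕ)} (hS : Lev K S) {γ : Ordinal.{0}}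
    (hγ : γ < om1) {n : ℕ} (v : Fin n → M) : ∃ T ∈ K, ∃ w : Fin n → ℕ,
      BFR S T univ univ γ (range fun i => (v i, w i)) := by
  have h1 : γ + (n : Ordinal.{0}) < om1 :=
    add_lt_om1 hγ ((Ordinal.natCast_lt_omega0 n).trans omega_lt_om1)
  obtain ⟨T, hT, hb⟩ := hS _ h1
  obtain ⟨w, -, hw⟩ := BFR.forth_many n hb v fun i => mem_univ _
  exact ⟨T, hT, w, BFR.anti subset_union_right hw⟩

theorem monDef_reflect {K : Set (L.Structure ℕ)} (hS : Lev K S)
    (h : ∀ T ∈ K, MonDef lam R U T) : MonDef lam R U S := by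
  obtain ⟨η, hη, e1, e2, e3, e4, e5⟩ := exists_wlev lam R U
  have hη1 : η + 1 < om1 := add_one_lt_om1 hη
  have hlt : η < η + 1 := lt_add_one_self η
  refine ⟨fun x => ?_, fun x y => ?_, fun x y z => ?_, fun x y => ?_, fun n => ⟨?_, ?_⟩, ?_⟩
  · obtain ⟨T, hT, w, hw⟩ := refl_tuple hS hη ![x]
    have m : ∀ i, (![x] i, w i) ∈ range fun i => (![x] i, w i) := fun i => ⟨i, rfl⟩
    exact (sat2_of_bfr lam e1 hw (m 0) (m 0)).mpr ((h T hT).refl _)
  · obtain ⟨T, hT, w, hw⟩ := refl_tuple hS hη ![x, y]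
    have m : ∀ i, (![x, y] i, w i) ∈ range fun i => (![x, y] i, w i) := fun i => ⟨i, rfl⟩
    intro h1 h2
    exact (hw.atEq.1 _ (m 0) _ (m 1)).mpr ((h T hT).anti _ _
      ((sat2_of_bfr lam e1 hw (m 0) (m 1)).mp h1) ((sat2_of_bfr lam e1 hw (m 1) (m 0)).mp h2))
  · obtain ⟨T, hT, w, hw⟩ := refl_tuple hS hη ![x, y, z]
    have m : ∀ i, (![x, y, z] i, w i) ∈ range fun i => (![x, y, z] i, w i) := fun i => ⟨i, rfl⟩
    intro h1 h2
    exact (sat2_of_bfr lam e1 hw (m 0) (m 2)).mpr ((h T hT).trans _ _ _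
      ((sat2_of_bfr lam e1 hw (m 0) (m 1)).mp h1) ((sat2_of_bfr lam e1 hw (m 1) (m 2)).mp h2))
  · obtain ⟨T, hT, w, hw⟩ := refl_tuple hS hη ![x, y]
    have m : ∀ i, (![x, y] i, w i) ∈ range fun i => (![x, y] i, w i) := fun i => ⟨i, rfl⟩
    exact ((h T hT).total _ _).imp (sat2_of_bfr lam e1 hw (m 0) (m 1)).mpr
      (sat2_of_bfr lam e1 hw (m 1) (m 0)).mpr
  · intro x y z t
    obtain ⟨T, hT, w, hw⟩ := refl_tuple hS hη ![x, y, z, t]
    have m : ∀ i, (![x, y, z, t] i, w i) ∈ range fun i => (![x, y, z, t] i, w i) :=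
      fun i => ⟨i, rfl⟩
    intro h1 h2 h3 h4
    exact (sat2_of_bfr (R n) (e2 n) hw (m 0) (m 2)).mpr (((h T hT).conv n).1 _ _ _ _
      ((sat2_of_bfr (R n) (e2 n) hw (m 0) (m 1)).mp h1)
      ((sat2_of_bfr (R n) (e2 n) hw (m 0) (m 3)).mp h2)
      ((sat2_of_bfr lam e1 hw (m 1) (m 2)).mp h3) ((sat2_of_bfr lam e1 hw (m 2) (m 3)).mp h4))
  · intro x x' y y'
    obtain ⟨T, hT, w, hw⟩ := refl_tuple hS hη1 ![x, x', y, y']
    have m : ∀ i, (![x, x', y, y'] i, w i) ∈ range fun i => (![x, x', y, y'] i, w i) :=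
      fun i => ⟨i, rfl⟩
    intro h1 h2 h3
    obtain ⟨h4, h5⟩ := ((h T hT).conv n).2 _ _ _ _
      ((sat2_of_bfr lam (e1.trans hlt.le) hw (m 0) (m 1)).mp h1)
      ((sat2_of_bfr (R n) ((e2 n).trans hlt.le) hw (m 0) (m 2)).mp h2)
      ((sat2_of_bfr (R n) ((e2 n).trans hlt.le) hw (m 1) (m 3)).mp h3)
    refine ⟨(ex_bfr hlt hw fun z z' hz => ?_).mpr h4, (ex_bfr hlt hw fun z z' hz => ?_).mpr h5⟩
    · exact and_congr (sat2_of_bfr (R n) (e2 n) hz (mem_insert_of_mem _ (m 1)) (mem_insert _ _))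
        (sat2_of_bfr lam e1 hz (mem_insert_of_mem _ (m 2)) (mem_insert _ _))
    · exact and_congr (sat2_of_bfr (R n) (e2 n) hz (mem_insert_of_mem _ (m 0)) (mem_insert _ _))
        (sat2_of_bfr lam e1 hz (mem_insert _ _) (mem_insert_of_mem _ (m 3)))
  · intro n r v w h1 h2 h3
    obtain ⟨T, hT, u, hu⟩ := refl_tuple hS hη (Fin.append v w)
    have mv : ∀ i, (v i, u (Fin.castAdd n i)) ∈ range fun i => (Fin.append v w i, u i) :=
      fun i => ⟨Fin.castAdd n i, Prod.ext (Fin.append_left v w i) rfl⟩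
    have mw : ∀ i, (w i, u (Fin.natAdd n i)) ∈ range fun i => (Fin.append v w i, u i) :=
      fun i => ⟨Fin.natAdd n i, Prod.ext (Fin.append_right v w i) rfl⟩
    have e := (h T hT).atom n r (fun i => u (Fin.castAdd n i)) (fun i => u (Fin.natAdd n i))
      (fun i k => ((sat1_of_bfr (U k) (e3 k) hu (mv i)).symm.trans (h1 i k)).trans
        (sat1_of_bfr (U k) (e3 k) hu (mw i)))
      (fun i j => ((sat2_of_bfr lam e1 hu (mv i) (mv j)).symm.trans (h2 i j)).trans
        (sat2_of_bfr lam e1 hu (mw i) (mw j)))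
      (fun i j k => ((sat2_of_bfr (R k) (e2 k) hu (mv i) (mv j)).symm.trans (h3 i j k)).trans
        (sat2_of_bfr (R k) (e2 k) hu (mw i) (mw j)))
    have f1 := hu.atEq.2 n r (fun i => (v i, u (Fin.castAdd n i))) mv
    have f2 := hu.atEq.2 n r (fun i => (w i, u (Fin.natAdd n i))) mw
    exact (f1.trans e).trans f2.symm

end

end

end Pool.Agent.MON
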