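import Pool.Agent.MON.FINt

/-!
# Convex relations with monotone ends: the dichotomy
-/

set_option autoImplicit false
set_option linter.unusedSectionVars false
set_option linter.unusedVariables false

namespace Pool.Agent.MON

open Set Pool.Agent.Helper5 Pool.Agent.Helper5.DU Pool.Agent.Helper6.Str
  Pool.Agent.Helper79.VC Pool.Agent.Helper97.VC Pool.Agent.Helper97.MD Pool.Agent.Helper6.VC
  Pool.Agent.Helper97.LO

variable {L : FirstOrder.Language.{0, 0}} {M N : Type}

/-- the statement about large structures which is used -/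
def MainStatement : Prop :=
  ∀ (M : Type) (S : LW.Structure M) (K : Set (LW.Structure ℕ)) (δ : Ordinal.{0}),
    VSt K δ S → Mon sW S → TT S univ

theorem dfb_univ {S : L.Structure M} : Dfb S univ :=
  ⟨∅, 0, Ordinal.omega_pos 1, fun c c' _ => ⟨fun _ => mem_univ _, fun _ => mem_univ _⟩⟩

theorem tt_of_tt_wSt {lam : FmI L 2} {R : ℕ → FmI L 2} {U : ℕ → FmI L 1} {S : L.Structure M}
    (h : MonDef lam R U S) (ht : TT (wSt lam R U S) univ) : TT S univ := by
  intro F
  obtain ⟨κ, hκ⟩ := ht F
  exact ⟨κ, fun c hc c' hc' hcc γ hγ => bfr_of_bfr_wSt h γ (hκ c hc c' hc' hcc γ hγ)⟩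

theorem tt_of_tt_theta {lam : FmI L 2} {R : ℕ → FmI L 2} {U : ℕ → FmI L 1} {S : L.Structure M}
    (h : AtomDet lam R U S) {X : Set M} (ht : TT (theta lam R U S) X) : TT S X := by
  intro F
  obtain ⟨κ, hκ⟩ := ht F
  exact ⟨κ, fun c hc c' hc' hcc γ hγ => bfr_of_bfr_theta h γ (hκ c hc c' hc' hcc γ hγ)⟩

/-- **Large structures with a definable linear order and definable convex relations with
monotone ends.** -/
theorem tt_of_monDef (hmain : MainStatement) [∀ n, IsEmpty (L.Functions n)]
    [∀ n, Countable (L.Relations n)] {K : Set (L.Structure ℕ)} {δ : Ordinal.{0}}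
    {S : L.Structure M} (hS : VSt K δ S) {lam : FmI L 2} {R : ℕ → FmI L 2}
    {U : ℕ → FmI L 1} (hM : MonDef lam R U S) : TT S univ := by
  obtain ⟨K', δ', hV'⟩ := vst_wSt hS hM
  exact tt_of_tt_wSt hM (hmain _ _ K' δ' hV' (mon_wS hM.refl hM.anti hM.trans hM.total))

private theorem finc_enum {A : Type} [Countable A] {B : Type} (f : A → B) (b : B) :
    ∃ g : ℕ → B, (∀ a, ∃ n, g n = f a) ∧ ∀ n, g n = b ∨ ∃ a, g n = f a := by
  rcases isEmpty_or_nonempty A with hA | hA
  · exact ⟨fun _ => b, fun a => (hA.false a).elim, fun _ => Or.inl rfl⟩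
  · obtain ⟨e, he⟩ := exists_surjective_nat A
    exact ⟨fun n => f (e n), fun a => (he a).imp fun n hn => congrArg f hn,
      fun n => Or.inr ⟨e n, rfl⟩⟩

/-- the same for a language with unary and binary symbols, one of which is the order -/
theorem tt_of_convMono (hmain : MainStatement) (hL : Ar2 L) [∀ n, IsEmpty (L.Functions n)]
    [∀ n, Countable (L.Relations n)] {K : Set (L.Structure ℕ)} {δ : Ordinal.{0}}
    {S : L.Structure M} (hS : VSt K δ S) (le : L.Relations 2)
    (hr : ∀ x, S.RelMap le ![x, x])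
    (ha : ∀ x y, S.RelMap le ![x, y] → S.RelMap le ![y, x] → x = y)
    (ht : ∀ x y z, S.RelMap le ![x, y] → S.RelMap le ![y, z] → S.RelMap le ![x, z])
    (hto : ∀ x y, S.RelMap le ![x, y] ∨ S.RelMap le ![y, x])
    (hc : ∀ R : L.Relations 2, ConvMono (fun x y => S.RelMap le ![x, y])
      fun x y => S.RelMap R ![x, y]) : TT S univ := by
  let at2 : L.Relations 2 → FmI L 2 := fun R => .rel R id
  obtain ⟨R, hR1, hR2⟩ := finc_enum at2 (at2 le)
  obtain ⟨U, hU1, hU2⟩ := finc_enum (fun U : L.Relations 1 => (.rel U id : FmI L 1)) (.eq 0 0)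
  have e2 : ∀ (r : L.Relations 2) x y, rl2 S (at2 r) x y ↔ S.RelMap r ![x, y] :=
    fun r x y => Iff.rfl
  have hM : MonDef (at2 le) R U S := by
    refine ⟨hr, ha, ht, hto, fun n => ?_, fun n r v w h1 h2 h3 => ?_⟩
    · rcases hR2 n with h | ⟨r, h⟩
      · rw [h]
        exact hc le
      · rw [h]
        exact hc r
    · by_cases hn1 : n = 1
      · subst hn1
        obtain ⟨k, hk⟩ := hU1 r
        have h4 := h1 0 k
        rw [hk] at h4
        have ev : ∀ v : Fin 1 → M, ![v 0] = v := by
          intro v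
          funext i
          match i with
          | 0 => rfl
        have h5 : S.RelMap r ![v 0] ↔ S.RelMap r ![w 0] := h4
        rwa [ev v, ev w] at h5
      by_cases hn2 : n = 2
      · subst hn2
        obtain ⟨k, hk⟩ := hR1 r
        have h4 := h3 0 1 k
        rw [hk] at h4
        have ev : ∀ v : Fin 2 → M, ![v 0, v 1] = v := by
          intro v
          funext i
          match i with
          | 0 => rfl
          | 1 => rfl
        have h5 : S.RelMap r ![v 0, v 1] ↔ S.RelMap r ![w 0, w 1] := h4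
        rwa [ev v, ev w] at h5
      exact ((hL n hn1 hn2).false r).elim
  exact tt_of_monDef hmain hS hM

private theorem finc_mono {K : Set (L.Structure ℕ)} {d d' : Ordinal.{0}} (h : ClosedLev K d)
    (hd : d ≤ d') : ClosedLev K d' :=
  fun S hS S' hSS => h S hS S' (hSS.mono hd)

/-- **Scheme of the dichotomies.** If the large structures of a scattered class have countable
sets realising all types then the dichotomy holds. -/
theorem dichotomy_of_large (hc : Countable L.Symbols)
    (hrel : ∀ n, IsEmpty (L.Functions n)) (T : L.Theory) (φ : FmI L 0)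
    (h : ∀ (M : Type) (S : L.Structure M) (δ : Ordinal.{0}),
      VSt {S : L.Structure ℕ | IsMod T φ S} δ S → ¬ NoCtblType S) :
    (∃ g : ℕ → L.Structure ℕ, ∀ S : L.Structure ℕ, IsMod T φ S →
        ∃ n : ℕ, Nonempty (@FirstOrder.Language.Equiv L ℕ ℕ S (g n))) ∨
    (∃ f : (ℕ → Bool) → L.Structure ℕ,
        (∀ x : ℕ → Bool, IsMod T φ (f x)) ∧
        (∀ x y : ℕ → Bool,
            Nonempty (@FirstOrder.Language.Equiv L ℕ ℕ (f x) (f y)) → x = y) ∧
        (∀ (n : ℕ) (R : L.Relations n) (a : Fin n → ℕ),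
            IsClopen {x : ℕ → Bool | @FirstOrder.Language.Structure.RelMap L ℕ (f x) n R a})) := by
  have hcr : ∀ n, Countable (L.Relations n) := countable_relations hc
  let K : Set (L.Structure ℕ) := {S | IsMod T φ S}
  obtain ⟨hK, d, hd, hcl⟩ := exists_level hc T φ (K := K) fun S => Iff.rfl
  by_cases hP : PerfK K
  · obtain ⟨f, hf1, hf2, hf3⟩ := hP
    exact Or.inr ⟨f, hf1, fun x y h => hf2 x y ((nonempty_equiv_iff _ _).mp h), hf3⟩
  · have hC : CtblK K := by
      by_contra hC
      have hS := scat_of_not_perf hK hP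
      obtain ⟨M, S, hlev, hNT⟩ := exists_model hK hS hd hcl hC
      exact h M S _ ⟨hK, hS, max_lt hd (add_lt_om1 omega_lt_om1 omega_lt_om1), le_max_right _ _,
        finc_mono hcl (le_max_left _ _), hlev⟩ hNT
    obtain ⟨g, hg⟩ := hC
    refine Or.inl ⟨g, fun S h1 => ?_⟩
    obtain ⟨n, hn⟩ := hg S h1
    exact ⟨n, (nonempty_equiv_iff S (g n)).mpr hn⟩

/-- **The dichotomy for linear orders with convex relations with monotone ends.** -/
theorem dichotomy_of_monDef (hmain : MainStatement) (hc : Countable L.Symbols)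
    (hrel : ∀ n, IsEmpty (L.Functions n)) (T : L.Theory) (φ : FmI L 0)
    (lam : FmI L 2) (R : ℕ → FmI L 2) (U : ℕ → FmI L 1)
    (h : ∀ S : L.Structure ℕ, IsMod T φ S → MonDef lam R U S) :
    (∃ g : ℕ → L.Structure ℕ, ∀ S : L.Structure ℕ, IsMod T φ S →
        ∃ n : ℕ, Nonempty (@FirstOrder.Language.Equiv L ℕ ℕ S (g n))) ∨
    (∃ f : (ℕ → Bool) → L.Structure ℕ,
        (∀ x : ℕ → Bool, IsMod T φ (f x)) ∧
        (∀ x y : ℕ → Bool,
            Nonempty (@FirstOrder.Language.Equiv L ℕ ℕ (f x) (f y)) → x = y) ∧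
        (∀ (n : ℕ) (R : L.Relations n) (a : Fin n → ℕ),
            IsClopen {x : ℕ → Bool | @FirstOrder.Language.Structure.RelMap L ℕ (f x) n R a})) := by
  have hcr : ∀ n, Countable (L.Relations n) := countable_relations hc
  refine dichotomy_of_large hc hrel T φ fun M S δ hS hN => ?_
  have hM := monDef_reflect hS.lev fun T hT => h T hT
  exact not_noCtblType ((tt_of_monDef hmain hS hM).tameX dfb_univ) hN

end Pool.Agent.MON
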