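import Pool.Agent.MON.FINb
import Pool.Agent.VB.H
import Pool.Agent.Helper79.VCM.Reflect

/-!
# The binary structure given by formulas
-/

set_option autoImplicit false
set_option linter.unusedSectionVars false
set_option linter.unusedVariables false
set_option warn.classDefReducibility false

namespace Pool.Agent.MON

open Set Pool.Agent.Helper5 Pool.Agent.Helper5.DU Pool.Agent.Helper6.Str
  Pool.Agent.Helper79.VC Pool.Agent.Helper97.VC Pool.Agent.Helper97.MD Pool.Agent.Helper6.VC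
  Pool.Agent.Helper97.LO Pool.Agent.Helper79.VCM

variable {L : FirstOrder.Language.{0, 0}} {M N : Type}

/-- relation symbols -/
def TR : ℕ → Type
  | 1 => ℕ
  | 2 => Option ℕ
  | _ => Empty

/-- the language with unary symbols `U n`, a binary symbol `≤` and binary symbols `R n` -/
def LT : FirstOrder.Language.{0, 0} := ⟨fun _ => Empty, TR⟩

instance (n : ℕ) : IsEmpty (LT.Functions n) := inferInstanceAs (IsEmpty Empty)

instance (n : ℕ) : Countable (LT.Relations n) := by
  show Countable (TR n)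
  match n with
  | 0 => exact inferInstanceAs (Countable Empty)
  | 1 => exact inferInstanceAs (Countable ℕ)
  | 2 => exact inferInstanceAs (Countable (Option ℕ))
  | (n + 3) => exact inferInstanceAs (Countable Empty)

theorem lt_ar2 : Ar2 LT := by
  intro n h1 h2
  show IsEmpty (TR n)
  match n with
  | 0 => exact inferInstanceAs (IsEmpty Empty)
  | 1 => exact absurd rfl h1
  | 2 => exact absurd rfl h2
  | (n + 3) => exact inferInstanceAs (IsEmpty Empty)

/-- the relations -/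
def tRel (le : M → M → Prop) (R : ℕ → M → M → Prop) (U : ℕ → M → Prop) :
    (n : ℕ) → TR n → (Fin n → M) → Prop
  | 1, k, v => U k (v 0)
  | 2, none, v => le (v 0) (v 1)
  | 2, some k, v => R k (v 0) (v 1)
  | 0, r, _ => r.elim
  | (_ + 3), r, _ => r.elim

/-- the structure -/
def tS (le : M → M → Prop) (R : ℕ → M → M → Prop) (U : ℕ → M → Prop) : LT.Structure M where
  funMap := fun f _ => Empty.elim f
  RelMap := fun {n} r v => tRel le R U n r v

theorem atEq_tS {le : M → M → Prop} {R : ℕ → M → M → Prop} {U : ℕ → M → Prop}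
    {le' : N → N → Prop} {R' : ℕ → N → N → Prop} {U' : ℕ → N → Prop} {p : Set (M × N)} :
    AtEq (tS le R U) (tS le' R' U') p ↔
    (∀ a ∈ p, ∀ b ∈ p, a.1 = b.1 ↔ a.2 = b.2) ∧
    (∀ a ∈ p, ∀ k, U k a.1 ↔ U' k a.2) ∧
    (∀ a ∈ p, ∀ b ∈ p, le a.1 b.1 ↔ le' a.2 b.2) ∧
    ∀ a ∈ p, ∀ b ∈ p, ∀ k, R k a.1 b.1 ↔ R' k a.2 b.2 := by
  constructor
  · rintro ⟨h1, h2⟩
    refine ⟨h1, fun a ha k => ?_, fun a ha b hb => ?_, fun a ha b hb k => ?_⟩
    · exact h2 1 k (fun _ => a) (fun _ => ha)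
    · exact h2 2 none (![a, b]) (fun i => by
        match i with
        | 0 => exact ha
        | 1 => exact hb)
    · exact h2 2 (some k) (![a, b]) (fun i => by
        match i with
        | 0 => exact ha
        | 1 => exact hb)
  · rintro ⟨h1, h2, h3, h4⟩
    refine ⟨h1, fun n r v hv => ?_⟩
    match n, r with
    | 0, r => exact r.elim
    | 1, k => exact h2 _ (hv 0) k
    | 2, none => exact h3 _ (hv 0) _ (hv 1)
    | 2, some k => exact h4 _ (hv 0) _ (hv 1) k
    | (_ + 3), r => exact r.elim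

/-- The atomic facts are determined by the formulas `lam` and `R n` on pairs and the formulas
`U n`. -/
def AtomDet (lam : FmI L 2) (R : ℕ → FmI L 2) (U : ℕ → FmI L 1) (S : L.Structure M) : Prop :=
  ∀ (n : ℕ) (r : L.Relations n) (v w : Fin n → M),
    (∀ i k, rl1 S (U k) (v i) ↔ rl1 S (U k) (w i)) →
    (∀ i j, rl2 S lam (v i) (v j) ↔ rl2 S lam (w i) (w j)) →
    (∀ i j k, rl2 S (R k) (v i) (v j) ↔ rl2 S (R k) (w i) (w j)) →
    (S.RelMap r v ↔ S.RelMap r w)

/-- the structure given by the formulas -/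
def theta (lam : FmI L 2) (R : ℕ → FmI L 2) (U : ℕ → FmI L 1) (S : L.Structure M) :
    LT.Structure M :=
  tS (rl2 S lam) (fun n => rl2 S (R n)) fun n => rl1 S (U n)

section

variable {lam : FmI L 2} {R : ℕ → FmI L 2} {U : ℕ → FmI L 1} {S : L.Structure M}

theorem theta_le (x y : M) : (theta lam R U S).RelMap (n := 2) (none : Option ℕ) ![x, y] ↔
    rl2 S lam x y := Iff.rfl

theorem theta_rel (k : ℕ) (x y : M) :
    (theta lam R U S).RelMap (n := 2) (some k : Option ℕ) ![x, y] ↔ rl2 S (R k) x y := Iff.rfl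

theorem theta_un (k : ℕ) (x : M) :
    (theta lam R U S).RelMap (n := 1) (k : ℕ) ![x] ↔ rl1 S (U k) x := Iff.rfl

theorem atEq_of_atEq_theta (h : AtomDet lam R U S) {p : Set (M × M)}
    (hp : AtEq (theta lam R U S) (theta lam R U S) p) : AtEq S S p := by
  unfold theta at hp
  rw [atEq_tS] at hp
  obtain ⟨h1, h2, h3, h4⟩ := hp
  refine ⟨h1, fun n r v hv => ?_⟩
  exact h n r _ _ (fun i k => h2 _ (hv i) k) (fun i j => h3 _ (hv i) _ (hv j))
    fun i j k => h4 _ (hv i) _ (hv j) k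

theorem bfr_of_bfr_theta (h : AtomDet lam R U S) (γ : Ordinal.{0}) : ∀ {p : Set (M × M)},
    BFR (theta lam R U S) (theta lam R U S) univ univ γ p → BFR S S univ univ γ p := by
  induction γ using WellFoundedLT.induction with
  | _ γ ih =>
    intro p hp
    rw [BFR.def]
    refine ⟨atEq_of_atEq_theta h hp.atEq, fun β hβ => ⟨fun x _ => ?_, fun y _ => ?_⟩⟩
    · obtain ⟨y, -, hy⟩ := hp.forth hβ (mem_univ x)
      exact ⟨y, mem_univ _, ih β hβ hy⟩
    · obtain ⟨x, -, hx⟩ := hp.back hβ (mem_univ y)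
      exact ⟨x, mem_univ _, ih β hβ hx⟩

theorem not_noCtblType_of_theta (h : AtomDet lam R U S)
    (ht : TameX (theta lam R U S) univ) : ¬ NoCtblType S := by
  intro hN
  refine not_noCtblType ht ?_
  rintro ⟨A, hA, hA'⟩
  refine hN ⟨A, hA, fun F hF c => ?_⟩
  obtain ⟨d, hd, hd'⟩ := hA' F hF c
  exact ⟨d, hd, fun γ hγ => bfr_of_bfr_theta h γ (hd' γ hγ)⟩

/-- a countable level at which the formulas are preserved -/
theorem exists_tlev (lam : FmI L 2) (R : ℕ → FmI L 2) (U : ℕ → FmI L 1) :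
    ∃ η < om1, ordOf (rk lam) ≤ η ∧ (∀ n, ordOf (rk (R n)) ≤ η) ∧
      ∀ n, ordOf (rk (U n)) ≤ η := by
  obtain ⟨η, hη, e1, e2, e3, -, -⟩ := exists_wlev lam R U
  exact ⟨η, hη, e1, e2, e3⟩

theorem atEq_theta_of_bfr {S' : L.Structure N} {η : Ordinal.{0}} (e1 : ordOf (rk lam) ≤ η)
    (e2 : ∀ n, ordOf (rk (R n)) ≤ η) (e3 : ∀ n, ordOf (rk (U n)) ≤ η) {p : Set (M × N)}
    (hb : BFR S S' univ univ η p) : AtEq (theta lam R U S) (theta lam R U S') p := by
  unfold theta
  rw [atEq_tS]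
  exact ⟨hb.atEq.1, fun a ha k => sat1_of_bfr (U k) (e3 k) hb ha,
    fun a ha b hb' => sat2_of_bfr lam e1 hb ha hb',
    fun a ha b hb' k => sat2_of_bfr (R k) (e2 k) hb ha hb'⟩

variable [∀ n, IsEmpty (L.Functions n)] [∀ n, Countable (L.Relations n)]
  {K : Set (L.Structure ℕ)} {δ : Ordinal.{0}}

theorem vst_theta (hS : VSt K δ S) (h : AtomDet lam R U S) :
    ∃ (K' : Set (LT.Structure ℕ)) (δ' : Ordinal.{0}), VSt K' δ' (theta lam R U S) := by
  have : Infinite M := infinite_of_lev hS.lev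
  obtain ⟨η, hη, e1, e2, e3⟩ := exists_tlev lam R U
  refine VSt.interp hS id Function.injective_id ∅ hη (fun c c' _ => by simp) ?_ ?_
  · intro p _ hb
    exact atEq_theta_of_bfr e1 e2 e3 (BFR.anti (fun a ha => Or.inl ⟨a, ha, rfl⟩) hb)
  · intro p _ hp G hG
    have hG' : G = ∅ := by
      ext g
      simp only [mem_empty_iff_false, iff_false]
      exact fun hg => hG g hg ⟨g, rfl⟩
    subst hG'
    have e : ((fun a : M × M => (id a.1, id a.2)) '' p ∪ dg (∅ : Set M)) = p := by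
      simp [dg]
    rw [e]
    exact atEq_of_atEq_theta h hp

theorem atomDet_reflect {K : Set (L.Structure ℕ)} (hS : Lev K S)
    (h : ∀ T ∈ K, AtomDet lam R U T) : AtomDet lam R U S := by
  obtain ⟨η, hη, e1, e2, e3⟩ := exists_tlev lam R U
  intro n r v w h1 h2 h3
  have h0 : η + ((n + n : ℕ) : Ordinal.{0}) < om1 :=
    add_lt_om1 hη ((Ordinal.natCast_lt_omega0 _).trans omega_lt_om1)
  obtain ⟨T, hT, hb⟩ := hS _ h0
  obtain ⟨u, -, hu⟩ := BFR.forth_many (n + n) hb (Fin.append v w) fun i => mem_univ _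
  have mv : ∀ i, (v i, u (Fin.castAdd n i)) ∈ (∅ ∪ range fun i => (Fin.append v w i, u i)) :=
    fun i => Or.inr ⟨Fin.castAdd n i, Prod.ext (Fin.append_left v w i) rfl⟩
  have mw : ∀ i, (w i, u (Fin.natAdd n i)) ∈ (∅ ∪ range fun i => (Fin.append v w i, u i)) :=
    fun i => Or.inr ⟨Fin.natAdd n i, Prod.ext (Fin.append_right v w i) rfl⟩
  have e := h T hT n r (fun i => u (Fin.castAdd n i)) (fun i => u (Fin.natAdd n i))
    (fun i k => ((sat1_of_bfr (U k) (e3 k) hu (mv i)).symm.trans (h1 i k)).trans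
      (sat1_of_bfr (U k) (e3 k) hu (mw i)))
    (fun i j => ((sat2_of_bfr lam e1 hu (mv i) (mv j)).symm.trans (h2 i j)).trans
      (sat2_of_bfr lam e1 hu (mw i) (mw j)))
    (fun i j k => ((sat2_of_bfr (R k) (e2 k) hu (mv i) (mv j)).symm.trans (h3 i j k)).trans
      (sat2_of_bfr (R k) (e2 k) hu (mw i) (mw j)))
  have f1 := hu.atEq.2 n r (fun i => (v i, u (Fin.castAdd n i))) mv
  have f2 := hu.atEq.2 n r (fun i => (w i, u (Fin.natAdd n i))) mw
  exact (f1.trans e).trans f2.symm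

/-! ### reflection in a countable submodel -/

/-- **Reflection** with agreement of formulas. -/
theorem exists_reflect_sat (hS : VSt K δ S) {η : Ordinal.{0}} (hη : η < om1)
    (g : Finset M → Set M) (hg : ∀ F, (g F).Countable) :
    ∃ f : ℕ → M, Function.Injective f ∧ pl S f ∈ K ∧
      (∀ F : Finset M, (F : Set M) ⊆ range f → g F ⊆ range f) ∧
      BFR S (pl S f) univ univ η ∅ ∧
      (∀ (n : ℕ) (v : Fin n → ℕ), BFR S (pl S f) univ univ η (range fun i => (f (v i), v i))) ∧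
      ∀ (n : ℕ) (ψ : FmI L n), ordOf (rk ψ) ≤ η → ∀ v : Fin n → ℕ,
        Sat (pl S f) ψ v ↔ Sat S ψ (f ∘ v) := by
  classical
  have hκ : ∀ F : Finset M, ∃ T : Set M, T.Countable ∧ ∀ c : M, ∃ c' ∈ T,
      BFR S S univ univ η (insert (c, c') ((fun a => (a, a)) '' (F : Set M))) := by
    intro F
    obtain ⟨κ, hκ⟩ := countable_classes hS.scat hη hS.lev F
    have hrep : ∀ (m : ℕ), ∃ T : Set M, T.Countable ∧
        ((∃ c, κ c = m) → ∃ c ∈ T, κ c = m) := by
      intro m
      by_cases h : ∃ c, κ c = m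
      · obtain ⟨c, hc⟩ := h
        exact ⟨{c}, countable_singleton _, fun _ => ⟨c, rfl, hc⟩⟩
      · exact ⟨∅, countable_empty, fun h' => absurd h' h⟩
    choose T hT1 hT2 using hrep
    refine ⟨⋃ m, T m, countable_iUnion hT1, fun c => ?_⟩
    obtain ⟨c', hc', hcc⟩ := hT2 (κ c) ⟨c, rfl⟩
    exact ⟨c', mem_iUnion.mpr ⟨κ c, hc'⟩, hκ c c' hcc.symm⟩
  choose T hT1 hT2 using hκ
  obtain ⟨f, hf, hfK, hfc⟩ := exists_reflect hS.scat hS.lt hS.clos hS.lev
    (fun F => g F ∪ T F) (fun F => (hg F).union (hT1 F))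
  have hcl : ∀ F : Finset M, (F : Set M) ⊆ range f → ∀ c : M, ∃ c' ∈ range f,
      BFR S S univ univ η (insert (c, c') ((fun a => (a, a)) '' (F : Set M))) := by
    intro F hF c
    obtain ⟨c', hc', h⟩ := hT2 F c
    exact ⟨c', hfc F hF (Or.inr hc'), h⟩
  have hb : ∀ (n : ℕ) (v : Fin n → ℕ),
      BFR S (pl S f) univ univ η (range fun i => (f (v i), v i)) := by
    intro n v
    have h1 : BFR S S univ (range f) η (range fun i => (f (v i), f (v i))) := by
      refine closed_rel hcl η le_rfl _ (finite_range _) ?_ (BFR.refl S univ η ?_)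
      · rintro _ ⟨i, rfl⟩
        exact mem_range_self _
      · rintro _ ⟨i, rfl⟩
        exact ⟨mem_univ _, rfl⟩
    refine BFR_pl' hf h1 ?_
    rintro _ ⟨i, rfl⟩
    exact ⟨i, rfl⟩
  refine ⟨f, hf, hfK, fun F hF => subset_union_left.trans (hfc F hF), ?_, hb, ?_⟩
  · exact BFR.anti (empty_subset _) (hb 0 fun i => i.elim0)
  · intro n ψ hψ v
    exact (sat_of_BF ψ (f ∘ v) v (BFR.bf _ ((hb n v).mono hψ))).symm

/-- the structure of the submodel is the substructure -/
theorem theta_pl {f : ℕ → M} {η : Ordinal.{0}} (e1 : ordOf (rk lam) ≤ η)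
    (e2 : ∀ n, ordOf (rk (R n)) ≤ η) (e3 : ∀ n, ordOf (rk (U n)) ≤ η)
    (h : ∀ (n : ℕ) (ψ : FmI L n), ordOf (rk ψ) ≤ η → ∀ v : Fin n → ℕ,
        Sat (pl S f) ψ v ↔ Sat S ψ (f ∘ v)) :
    theta lam R U (pl S f) = pl (theta lam R U S) f := by
  have k2 : ∀ (φ : FmI L 2), ordOf (rk φ) ≤ η → ∀ x y,
      rl2 (pl S f) φ x y ↔ rl2 S φ (f x) (f y) := by
    intro φ hφ x y
    have := h 2 φ hφ ![x, y]
    rw [rl2, this, rl2]
    have e : f ∘ ![x, y] = ![f x, f y] := by
      funext i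
      match i with
      | 0 => rfl
      | 1 => rfl
    rw [e]
  have k1 : ∀ (φ : FmI L 1), ordOf (rk φ) ≤ η → ∀ x, rl1 (pl S f) φ x ↔ rl1 S φ (f x) := by
    intro φ hφ x
    have := h 1 φ hφ ![x]
    rw [rl1, this, rl1]
    have e : f ∘ ![x] = ![f x] := by
      funext i
      match i with
      | 0 => rfl
    rw [e]
  refine FirstOrder.Language.Structure.ext ?_ ?_
  · funext n r v
    exact r.elim
  · funext n r v
    refine propext ?_
    match n, r with
    | 0, r => exact r.elim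
    | 1, k => exact k1 (U k) (e3 k) _
    | 2, none => exact k2 lam e1 _ _
    | 2, some k => exact k2 (R k) (e2 k) _ _
    | (_ + 3), r => exact r.elim

end

end Pool.Agent.MON
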