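import Pool.Agent.MON.FINc
import Pool.Agent.VB.N

/-!
# Increasing and decreasing relations: the doubled structure

Argument of helper45: the linear order `M` is doubled to `M+` followed by the reversed copy `M-`; increasing
relations act inside the copies, decreasing relations between the copies. The family of words is closed under
duals, compositions and the unary predicates `{z- | w(z+, z-)}`. Then no piece over a set which contains a
point `a+` contains two points `u+` and `u-`.
-/

set_option autoImplicit false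
set_option linter.unusedSectionVars false
set_option linter.unusedVariables false
set_option warn.classDefReducibility false

namespace Pool.Agent.MON

open Set Pool.Agent.Helper5 Pool.Agent.Helper5.DU Pool.Agent.Helper6.Str
  Pool.Agent.Helper79.VC Pool.Agent.Helper97.VC Pool.Agent.Helper97.MD Pool.Agent.Helper6.VC
  Pool.Agent.Helper97.LO

namespace PM

variable {L : FirstOrder.Language.{0, 0}} {M N : Type}

/-- words for the doubled structure -/
inductive Wp : Type
  | le : Wp
  | ip (n : ℕ) : Wp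
  | im (n : ℕ) : Wp
  | dp (n : ℕ) : Wp
  | dm (n : ℕ) : Wp
  | fx (w : Wp) : Wp
  | st (w : Wp) : Wp
  | cp (w w' : Wp) : Wp
  deriving Countable

/-- a relation between two copies, extended to the doubled structure -/
def ext (b c : Bool) (C : M → M → Prop) (p q : M × Bool) : Prop :=
  p.2 < b ∨ c < q.2 ∨ (p.2 = b ∧ q.2 = c ∧ C p.1 q.1)

/-- the order of the doubled structure -/
def leP (le : M → M → Prop) (p q : M × Bool) : Prop :=
  p.2 < q.2 ∨ (p.2 = q.2 ∧ (p.2 = false → le p.1 q.1) ∧ (p.2 = true → le q.1 p.1))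

/-- the relation named by a word -/
def wp (le : M → M → Prop) (I J : ℕ → M → M → Prop) : Wp → M × Bool → M × Bool → Prop
  | .le => leP le
  | .ip n => ext false false (I n)
  | .im n => ext true true fun x y => ¬ I n x y
  | .dp n => ext false true (J n)
  | .dm n => ext true false fun x y => ¬ J n x y
  | .fx w => fun _ q => q.2 = true ∧ wp le I J w (q.1, false) (q.1, true)
  | .st w => fun p q => ¬ wp le I J w q p
  | .cp w w' => fun p q => ∃ z, wp le I J w p z ∧ wp le I J w' z q

variable {le : M → M → Prop} {I J : ℕ → M → M → Prop}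

theorem leP_refl (hr : ∀ x, le x x) (p : M × Bool) : leP le p p :=
  Or.inr ⟨rfl, fun _ => hr _, fun _ => hr _⟩

theorem leP_trans (ht : ∀ x y z, le x y → le y z → le x z) (p q r : M × Bool)
    (h1 : leP le p q) (h2 : leP le q r) : leP le p r := by
  rcases h1 with h1 | ⟨h1, h1', h1''⟩ <;> rcases h2 with h2 | ⟨h2, h2', h2''⟩
  · exact Or.inl (h1.trans h2)
  · exact Or.inl (h2 ▸ h1)
  · exact Or.inl (h1 ▸ h2)
  · refine Or.inr ⟨h1.trans h2, fun h => ?_, fun h => ?_⟩
    · exact ht _ _ _ (h1' h) (h2' (h1 ▸ h))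
    · exact ht _ _ _ (h2'' (h1 ▸ h)) (h1'' h)

theorem leP_anti (ha : ∀ x y, le x y → le y x → x = y) (p q : M × Bool)
    (h1 : leP le p q) (h2 : leP le q p) : p = q := by
  rcases h1 with h1 | ⟨h1, h1', h1''⟩ <;> rcases h2 with h2 | ⟨h2, h2', h2''⟩
  · exact absurd (h1.trans h2) (lt_irrefl _)
  · exact absurd h1 (h2 ▸ lt_irrefl _)
  · exact absurd h2 (h1 ▸ lt_irrefl _)
  · refine Prod.ext ?_ h1
    cases hb : p.2
    · exact ha _ _ (h1' hb) (h2' (h1 ▸ hb))
    · exact ha _ _ (h2'' (h1 ▸ hb)) (h1'' hb)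

theorem leP_total (hto : ∀ x y, le x y ∨ le y x) (p q : M × Bool) :
    leP le p q ∨ leP le q p := by
  rcases lt_trichotomy p.2 q.2 with h | h | h
  · exact Or.inl (Or.inl h)
  · cases hb : p.2
    · have hb' : q.2 = false := h ▸ hb
      rcases hto p.1 q.1 with h1 | h1
      · exact Or.inl (Or.inr ⟨h, fun _ => h1, fun h2 => by rw [hb] at h2; cases h2⟩)
      · exact Or.inr (Or.inr ⟨h.symm, fun _ => h1, fun h2 => by rw [hb'] at h2; cases h2⟩)
    · have hb' : q.2 = true := h ▸ hb
      rcases hto p.1 q.1 with h1 | h1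
      · exact Or.inr (Or.inr ⟨h.symm, fun h2 => by (rw [hb'] at h2; cases h2), fun _ => h1⟩)
      · exact Or.inl (Or.inr ⟨h, fun h2 => by (rw [hb] at h2; cases h2), fun _ => h1⟩)
  · exact Or.inr (Or.inl h)

/-- extensions of monotone relations between copies are monotone -/
theorem ext_mono (b c : Bool) (C : M → M → Prop)
    (hC : ∀ x' x y y', (if b then le x x' else le x' x) → C x y →
      (if c then le y' y else le y y') → C x' y') (p' p q q' : M × Bool)
    (h1 : leP le p' p) (h2 : ext b c C p q) (h3 : leP le q q') : ext b c C p' q' := by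
  have e1 : p'.2 ≤ p.2 := by
    rcases h1 with h | ⟨h, -⟩
    · exact h.le
    · exact h.le
  have e3 : q.2 ≤ q'.2 := by
    rcases h3 with h | ⟨h, -⟩
    · exact h.le
    · exact h.le
  rcases h2 with h2 | h2 | ⟨h2, h2', h2''⟩
  · exact Or.inl (e1.trans_lt h2)
  · exact Or.inr (Or.inl (h2.trans_le e3))
  · rcases e1.lt_or_eq with h4 | h4
    · exact Or.inl (h2 ▸ h4)
    rcases e3.lt_or_eq with h5 | h5
    · exact Or.inr (Or.inl (h2' ▸ h5))
    refine Or.inr (Or.inr ⟨h4.trans h2, h5.symm.trans h2', hC _ _ _ _ ?_ h2'' ?_⟩)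
    · rcases h1 with h | ⟨h, ha, hb⟩
      · exact absurd h (h4 ▸ lt_irrefl _)
      · subst h2
        split
        · next hh => exact hb (h.trans hh)
        · next hh => exact ha (h.trans (Bool.not_eq_true _ ▸ hh))
    · rcases h3 with h | ⟨h, ha, hb⟩
      · exact absurd h (h5 ▸ lt_irrefl _)
      · subst h2'
        split
        · next hh => exact hb hh
        · next hh => exact ha (Bool.not_eq_true _ ▸ hh)

theorem wp_mono (hr : ∀ x, le x x) (ht : ∀ x y z, le x y → le y z → le x z)
    (hI : ∀ n x' x y y', le x' x → I n x y → le y y' → I n x' y')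
    (hJ : ∀ n x' x y y', le x' x → J n x y → le y' y → J n x' y') (w : Wp) :
    ∀ p' p q q', leP le p' p → wp le I J w p q → leP le q q' → wp le I J w p' q' := by
  induction w with
  | le => intro p' p q q' h1 h2 h3; exact leP_trans ht _ _ _ h1 (leP_trans ht _ _ _ h2 h3)
  | ip n =>
    refine ext_mono _ _ _ ?_
    intro x' x y y' h1 h2 h3
    exact hI n x' x y y' (by simpa using h1) h2 (by simpa using h3)
  | im n =>
    refine ext_mono _ _ _ ?_
    intro x' x y y' h1 h2 h3 h4
    exact h2 (hI n x x' y' y (by simpa using h1) h4 (by simpa using h3))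
  | dp n =>
    refine ext_mono _ _ _ ?_
    intro x' x y y' h1 h2 h3
    exact hJ n x' x y y' (by simpa using h1) h2 (by simpa using h3)
  | dm n =>
    refine ext_mono _ _ _ ?_
    intro x' x y y' h1 h2 h3 h4
    exact h2 (hJ n x x' y' y (by simpa using h1) h4 (by simpa using h3))
  | fx w ih =>
    rintro p' p q q' - ⟨h1, h2⟩ h3
    have h4 : q'.2 = true := by
      rcases h3 with h | ⟨h, -⟩
      · rw [h1] at h
        exact absurd h (by simp)
      · exact h.symm.trans h1
    have h5 : le q'.1 q.1 := by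
      rcases h3 with h | ⟨h, -, hb⟩
      · rw [h1] at h
        exact absurd h (by simp)
      · exact hb h1
    refine ⟨h4, ih _ _ _ _ ?_ h2 ?_⟩
    · exact Or.inr ⟨rfl, fun _ => h5, fun h => by cases h⟩
    · exact Or.inr ⟨rfl, fun h => (by cases h), fun _ => h5⟩
  | st w ih =>
    intro p' p q q' h1 h2 h3 h4
    exact h2 (ih _ _ _ _ h3 h4 h1)
  | cp w w' ih ih' =>
    rintro p' p q q' h1 ⟨z, h2, h2'⟩ h3
    exact ⟨z, ih _ _ _ _ h1 h2 (leP_refl hr z), ih' _ _ _ _ (leP_refl hr z) h2' h3⟩

/-- the relation symbols -/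
def PR : ℕ → Type
  | 2 => Wp
  | _ => Empty

/-- the language -/
def LP : FirstOrder.Language.{0, 0} := ⟨fun _ => Empty, PR⟩

/-- the relations -/
def pRel (le : M → M → Prop) (I J : ℕ → M → M → Prop) :
    (n : ℕ) → PR n → (Fin n → M × Bool) → Prop
  | 2, w, v => wp le I J w (v 0) (v 1)
  | 0, r, _ => r.elim
  | 1, r, _ => r.elim
  | (_ + 3), r, _ => r.elim

/-- the doubled structure -/
def pS (le : M → M → Prop) (I J : ℕ → M → M → Prop) : LP.Structure (M × Bool) where
  funMap := fun f _ => Empty.elim f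
  RelMap := fun {n} r v => pRel le I J n r v

/-- the signature -/
def sP : Sig LP where
  ι := Wp
  sy := fun w => w
  st := .st
  cp := .cp
  le := .le

theorem rl_pS (w : Wp) (x y : M × Bool) : Rl sP (pS le I J) w x y ↔ wp le I J w x y := Iff.rfl

theorem atEq_pS {p : Set ((M × Bool) × (M × Bool))} : AtEq (pS le I J) (pS le I J) p ↔
    (∀ a ∈ p, ∀ b ∈ p, a.1 = b.1 ↔ a.2 = b.2) ∧
    ∀ a ∈ p, ∀ b ∈ p, ∀ w, wp le I J w a.1 b.1 ↔ wp le I J w a.2 b.2 := by
  constructor
  · rintro ⟨h1, h2⟩
    refine ⟨h1, fun a ha b hb w => ?_⟩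
    have := h2 2 w (![a, b]) (fun i => by
      match i with
      | 0 => exact ha
      | 1 => exact hb)
    exact this
  · rintro ⟨h1, h4⟩
    refine ⟨h1, fun n r v hv => ?_⟩
    match n, r with
    | 0, r => exact r.elim
    | 1, r => exact r.elim
    | 2, w => exact h4 _ (hv 0) _ (hv 1) w
    | (_ + 3), r => exact r.elim

theorem mon_pS (hr : ∀ x, le x x) (ha : ∀ x y, le x y → le y x → x = y)
    (ht : ∀ x y z, le x y → le y z → le x z) (hto : ∀ x y, le x y ∨ le y x)
    (hI : ∀ n x' x y y', le x' x → I n x y → le y y' → I n x' y')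
    (hJ : ∀ n x' x y y', le x' x → J n x y → le y' y → J n x' y') :
    Mon sP (pS le I J) where
  refl := leP_refl hr
  anti := leP_anti ha
  trans := leP_trans ht
  total := leP_total hto
  mono i x' x y y' h1 h2 h3 := wp_mono hr ht hI hJ i x' x y y' h1 h2 h3
  star i x y := Iff.rfl
  comp i j x y := Iff.rfl
  full a b a' b' h1 h2 h3 := by
    have h4 : ∀ w, wp le I J w b a ↔ wp le I J w b' a' := by
      intro w
      exact not_iff_not.mp (h3 (.st w))
    have h5 : a = b ↔ a' = b' := by
      have e1 : ∀ c d, c = d ↔ leP le c d ∧ leP le d c := fun c d =>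
        ⟨fun h => h ▸ ⟨leP_refl hr c, leP_refl hr c⟩, fun h => leP_anti ha _ _ h.1 h.2⟩
      rw [e1 a b, e1 a' b']
      exact and_congr (h3 .le) (h4 .le)
    rw [atEq_pS] at h1 h2 ⊢
    refine ⟨?_, ?_⟩
    · rintro x (rfl | rfl) y (rfl | rfl)
      · simp
      · exact h5
      · exact ⟨fun h => (h5.mp h.symm).symm, fun h => (h5.mpr h.symm).symm⟩
      · simp
    · rintro x (rfl | rfl) y (rfl | rfl)
      · exact h1.2 _ rfl _ rfl
      · exact h3
      · exact h4
      · exact h2.2 _ rfl _ rfl

/-- **No odd cycles.** -/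
theorem not_pc (hr : ∀ x, le x x) (ha : ∀ x y, le x y → le y x → x = y)
    (ht : ∀ x y z, le x y → le y z → le x z) (hto : ∀ x y, le x y ∨ le y x)
    (hI : ∀ n x' x y y', le x' x → I n x y → le y y' → I n x' y')
    (hJ : ∀ n x' x y y', le x' x → J n x y → le y' y → J n x' y')
    {F : Finset (M × Bool)} {a : M × Bool} (haF : a ∈ F) (u : M) :
    ¬ Pc sP (pS le I J) F (u, false) (u, true) := by
  have hM := mon_pS hr ha ht hto hI hJ
  rintro (h | ⟨w, hw⟩)
  · exact absurd (congrArg Prod.snd h) (by simp)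
  rw [hM.in_iff] at hw
  obtain ⟨h1, h2⟩ := hw a haF (.fx w)
  by_cases h3 : wp le I J w (u, false) (u, true)
  · obtain ⟨z, ⟨hz, hz'⟩, hz''⟩ := h2 ⟨rfl, h3⟩
    obtain ⟨v, c⟩ := z
    cases hz
    have h4 : le u v := by
      rcases hto u v with h | h
      · exact h
      · exfalso
        refine hz'' (wp_mono hr ht hI hJ w _ _ _ _ (leP_refl hr _) h3 ?_)
        exact Or.inr ⟨rfl, fun h => (by cases h), fun _ => h⟩
    refine hz'' (wp_mono hr ht hI hJ w _ _ _ _ ?_ hz' (leP_refl hr _))
    exact Or.inr ⟨rfl, fun _ => h4, fun h => by cases h⟩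
  · obtain ⟨z, hz, hz'⟩ := h1 fun h => h3 h.2
    obtain ⟨v, c⟩ := z
    have hc : c = true := by
      by_contra hc
      refine h3 (wp_mono hr ht hI hJ w _ _ _ _ (leP_refl hr _) hz (Or.inl ?_))
      have : c = false := by simpa using hc
      subst this
      exact Bool.false_lt_true
    subst hc
    have h4 : le v u := by
      rcases hto v u with h | h
      · exact h
      · exfalso
        refine h3 (wp_mono hr ht hI hJ w _ _ _ _ (leP_refl hr _) hz ?_)
        exact Or.inr ⟨rfl, fun h => (by cases h), fun _ => h⟩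
    refine hz' ⟨rfl, wp_mono hr ht hI hJ w _ _ _ _ ?_ hz (leP_refl hr _)⟩
    exact Or.inr ⟨rfl, fun _ => h4, fun h => by cases h⟩

end PM

end Pool.Agent.MON
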