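import Pool.Agent.MON.PMa
import Pool.Agent.VB.Q

/-!
# Increasing and decreasing relations: large structures are tame
-/

set_option autoImplicit false
set_option linter.unusedSectionVars false
set_option linter.unusedVariables false
set_option warn.classDefReducibility false

namespace Pool.Agent.MON

open Set Pool.Agent.Helper5 Pool.Agent.Helper5.DU Pool.Agent.Helper6.Str
  Pool.Agent.Helper79.VC Pool.Agent.Helper97.VC Pool.Agent.Helper97.MD Pool.Agent.Helper6.VC
  Pool.Agent.Helper97.LO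

namespace PM

variable {L : FirstOrder.Language.{0, 0}} {M N : Type}

/-! ### languages with unary symbols `A` and binary symbols `B` -/

/-- relation symbols -/
def GR (A B : Type) : ℕ → Type
  | 1 => A
  | 2 => B
  | _ => Empty

/-- the language -/
def LG (A B : Type) : FirstOrder.Language.{0, 0} := ⟨fun _ => Empty, GR A B⟩

instance (A B : Type) (n : ℕ) : IsEmpty ((LG A B).Functions n) := inferInstanceAs (IsEmpty Empty)

instance (A B : Type) [Countable A] [Countable B] (n : ℕ) :
    Countable ((LG A B).Relations n) := by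
  show Countable (GR A B n)
  match n with
  | 0 => exact inferInstanceAs (Countable Empty)
  | 1 => exact inferInstanceAs (Countable A)
  | 2 => exact inferInstanceAs (Countable B)
  | (n + 3) => exact inferInstanceAs (Countable Empty)

theorem lg_ar2 (A B : Type) : Ar2 (LG A B) := by
  intro n h1 h2
  show IsEmpty (GR A B n)
  match n with
  | 0 => exact inferInstanceAs (IsEmpty Empty)
  | 1 => exact absurd rfl h1
  | 2 => exact absurd rfl h2
  | (n + 3) => exact inferInstanceAs (IsEmpty Empty)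

/-- the relations -/
def gRel {A B : Type} (U : A → M → Prop) (R : B → M → M → Prop) :
    (n : ℕ) → GR A B n → (Fin n → M) → Prop
  | 1, k, v => U k (v 0)
  | 2, k, v => R k (v 0) (v 1)
  | 0, r, _ => r.elim
  | (_ + 3), r, _ => r.elim

/-- the structure -/
def gS {A B : Type} (U : A → M → Prop) (R : B → M → M → Prop) : (LG A B).Structure M where
  funMap := fun f _ => Empty.elim f
  RelMap := fun {n} r v => gRel U R n r v

theorem atEq_gS {A B : Type} {U : A → M → Prop} {R : B → M → M → Prop} {U' : A → N → Prop}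
    {R' : B → N → N → Prop} {p : Set (M × N)} :
    AtEq (gS U R) (gS U' R') p ↔
    (∀ a ∈ p, ∀ b ∈ p, a.1 = b.1 ↔ a.2 = b.2) ∧ (∀ a ∈ p, ∀ k, U k a.1 ↔ U' k a.2) ∧
    ∀ a ∈ p, ∀ b ∈ p, ∀ k, R k a.1 b.1 ↔ R' k a.2 b.2 := by
  constructor
  · rintro ⟨h1, h2⟩
    refine ⟨h1, fun a ha k => ?_, fun a ha b hb k => ?_⟩
    · exact h2 1 k (fun _ => a) (fun _ => ha)
    · exact h2 2 k (![a, b]) (fun i => by
        match i with
        | 0 => exact ha
        | 1 => exact hb)
  · rintro ⟨h1, h2, h4⟩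
    refine ⟨h1, fun n r v hv => ?_⟩
    match n, r with
    | 0, r => exact r.elim
    | 1, k => exact h2 _ (hv 0) k
    | 2, k => exact h4 _ (hv 0) _ (hv 1) k
    | (_ + 3), r => exact r.elim

/-! ### the data -/

/-- A linear order with definable increasing relations `I n` and decreasing relations `J n`, which
together with the definable predicates `U n` determine the atomic facts. -/
structure PMD (le : M → M → Prop) (I J : ℕ → M → M → Prop) (U : ℕ → M → Prop)
    (S : L.Structure M) (η : Ordinal.{0}) : Prop where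
  refl : ∀ x, le x x
  anti : ∀ x y, le x y → le y x → x = y
  trans : ∀ x y z, le x y → le y z → le x z
  total : ∀ x y, le x y ∨ le y x
  inc : ∀ n x' x y y', le x' x → I n x y → le y y' → I n x' y'
  dec : ∀ n x' x y y', le x' x → J n x y → le y' y → J n x' y'
  zero : ∀ x y, I 0 x y ↔ le x y
  atom : ∀ (n : ℕ) (r : L.Relations n) (v w : Fin n → M),
    (∀ i k, U k (v i) ↔ U k (w i)) → (∀ i j k, I k (v i) (v j) ↔ I k (w i) (w j)) →
    (∀ i j k, J k (v i) (v j) ↔ J k (w i) (w j)) → (S.RelMap r v ↔ S.RelMap r w)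
  lt : η < om1
  dfn : ∀ p : Set (M × M), BFR S S univ univ η p → ∀ a ∈ p, (∀ k, U k a.1 ↔ U k a.2) ∧
    ∀ b ∈ p, (∀ k, I k a.1 b.1 ↔ I k a.2 b.2) ∧ ∀ k, J k a.1 b.1 ↔ J k a.2 b.2

/-- the double of a set of pairs -/
def dbl (p : Set (M × M)) : Set ((M × Bool) × (M × Bool)) :=
  {q | (q.1.1, q.2.1) ∈ p ∧ q.1.2 = q.2.2}

/-- number of quantifiers -/
def rkn : Wp → ℕ
  | .fx w => rkn w
  | .st w => rkn w
  | .cp w w' => max (rkn w) (rkn w') + 1
  | _ => 0

section

variable {le : M → M → Prop} {I J : ℕ → M → M → Prop} {U : ℕ → M → Prop}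
  {S : L.Structure M} {η : Ordinal.{0}} (h : PMD le I J U S η)

include h

theorem wp_bfr (w : Wp) : ∀ {γ : Ordinal.{0}}, η + (rkn w : ℕ) ≤ γ → ∀ {p : Set (M × M)},
    BFR S S univ univ γ p → ∀ {x y x' y' : M}, (x, x') ∈ p → (y, y') ∈ p → ∀ b c : Bool,
    (wp le I J w (x, b) (y, c) ↔ wp le I J w (x', b) (y', c)) := by
  have base : ∀ {γ : Ordinal.{0}}, η + (0 : ℕ) ≤ γ → ∀ {p : Set (M × M)},
      BFR S S univ univ γ p → ∀ {x y x' y' : M}, (x, x') ∈ p → (y, y') ∈ p →
      (∀ k, I k x y ↔ I k x' y') ∧ ∀ k, J k x y ↔ J k x' y' := by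
    intro γ hγ p hp x y x' y' hx hy
    rw [Nat.cast_zero, add_zero] at hγ
    exact (h.dfn p (hp.mono hγ) _ hx).2 _ hy
  induction w with
  | le =>
    intro γ hγ p hp x y x' y' hx hy b c
    have h1 := (base hγ hp hx hy).1 0
    have h2 := (base hγ hp hy hx).1 0
    rw [h.zero, h.zero] at h1 h2
    show leP le (x, b) (y, c) ↔ leP le (x', b) (y', c)
    unfold leP
    simp only [h1, h2]
  | ip n =>
    intro γ hγ p hp x y x' y' hx hy b c
    show ext _ _ _ _ _ ↔ ext _ _ _ _ _
    unfold ext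
    simp only [(base hγ hp hx hy).1 n]
  | im n =>
    intro γ hγ p hp x y x' y' hx hy b c
    show ext _ _ _ _ _ ↔ ext _ _ _ _ _
    unfold ext
    simp only [(base hγ hp hx hy).1 n]
  | dp n =>
    intro γ hγ p hp x y x' y' hx hy b c
    show ext _ _ _ _ _ ↔ ext _ _ _ _ _
    unfold ext
    simp only [(base hγ hp hx hy).2 n]
  | dm n =>
    intro γ hγ p hp x y x' y' hx hy b c
    show ext _ _ _ _ _ ↔ ext _ _ _ _ _
    unfold ext
    simp only [(base hγ hp hx hy).2 n]
  | fx w ih =>
    intro γ hγ p hp x y x' y' hx hy b c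
    exact and_congr Iff.rfl (ih hγ hp hy hy false true)
  | st w ih =>
    intro γ hγ p hp x y x' y' hx hy b c
    exact not_congr (ih hγ hp hy hx c b)
  | cp w w' ih ih' =>
    intro γ hγ p hp x y x' y' hx hy b c
    set δ := η + ((max (rkn w) (rkn w') : ℕ) : Ordinal.{0}) with hδ
    have h1 : δ < γ := by
      refine lt_of_lt_of_le ?_ hγ
      rw [hδ]
      refine add_lt_add_right ?_ η
      show ((max (rkn w) (rkn w') : ℕ) : Ordinal.{0}) < ((max (rkn w) (rkn w') + 1 : ℕ) : Ordinal.{0})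
      exact_mod_cast Nat.lt_succ_self _
    have i1 : η + ((rkn w : ℕ) : Ordinal.{0}) ≤ δ := by
      rw [hδ]
      gcongr
      exact le_max_left _ _
    have i2 : η + ((rkn w' : ℕ) : Ordinal.{0}) ≤ δ := by
      rw [hδ]
      gcongr
      exact le_max_right _ _
    constructor
    · rintro ⟨⟨z, d⟩, hz1, hz2⟩
      obtain ⟨z', -, hz⟩ := hp.forth h1 (mem_univ z)
      refine ⟨(z', d), ?_, ?_⟩
      · exact (ih i1 hz (mem_insert_of_mem _ hx) (mem_insert _ _) b d).mp hz1
      · exact (ih' i2 hz (mem_insert _ _) (mem_insert_of_mem _ hy) d c).mp hz2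
    · rintro ⟨⟨z', d⟩, hz1, hz2⟩
      obtain ⟨z, -, hz⟩ := hp.back h1 (mem_univ z')
      refine ⟨(z, d), ?_, ?_⟩
      · exact (ih i1 hz (mem_insert_of_mem _ hx) (mem_insert _ _) b d).mpr hz1
      · exact (ih' i2 hz (mem_insert _ _) (mem_insert_of_mem _ hy) d c).mpr hz2

theorem atEq_dbl {p : Set (M × M)} (hp : BFR S S univ univ (η + Ordinal.omega0) p) :
    AtEq (pS le I J) (pS le I J) (dbl p) := by
  rw [atEq_pS]
  refine ⟨?_, ?_⟩
  · rintro ⟨⟨a, b⟩, ⟨a', b'⟩⟩ ⟨ha, hb⟩ ⟨⟨c, d⟩, ⟨c', d'⟩⟩ ⟨hc, hd⟩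
    have h1 := hp.atEq.1 _ ha _ hc
    dsimp only at h1 hb hd ⊢
    subst hb hd
    rw [Prod.mk.injEq, Prod.mk.injEq, h1]
  · rintro ⟨⟨a, b⟩, ⟨a', b'⟩⟩ ⟨ha, hb⟩ ⟨⟨c, d⟩, ⟨c', d'⟩⟩ ⟨hc, hd⟩ w
    dsimp only at hb hd ⊢
    subst hb hd
    refine wp_bfr h w ?_ hp ha hc b d
    gcongr
    exact (Ordinal.natCast_lt_omega0 _).le

theorem mon : Mon sP (pS le I J) := mon_pS h.refl h.anti h.trans h.total h.inc h.dec

theorem npc {F : Finset (M × Bool)} {a : M × Bool} (haF : a ∈ F) (u : M) :
    ¬ Pc sP (pS le I J) F (u, false) (u, true) :=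
  not_pc h.refl h.anti h.trans h.total h.inc h.dec haF u

end

theorem wp_ip {le : M → M → Prop} {I J : ℕ → M → M → Prop} (k : ℕ) (u v : M) :
    wp le I J (.ip k) (u, false) (v, false) ↔ I k u v := by
  simp [wp, ext]

theorem wp_im {le : M → M → Prop} {I J : ℕ → M → M → Prop} (k : ℕ) (u v : M) :
    wp le I J (.im k) (u, true) (v, true) ↔ ¬ I k u v := by
  simp [wp, ext]

theorem wp_dp {le : M → M → Prop} {I J : ℕ → M → M → Prop} (k : ℕ) (u v : M) :
    wp le I J (.dp k) (u, false) (v, true) ↔ J k u v := by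
  simp [wp, ext]

theorem wp_dm {le : M → M → Prop} {I J : ℕ → M → M → Prop} (k : ℕ) (u v : M) :
    wp le I J (.dm k) (u, true) (v, false) ↔ ¬ J k u v := by
  simp [wp, ext]

/-! ### codes -/

theorem exists_code {E : M → M → Prop} (hE : Equivalence E) (κ : M → ℕ)
    (hκ : ∀ u v, κ u = κ v → E u v) : ∃ code : M → ℕ, ∀ u v, code u = code v ↔ E u v := by
  classical
  refine ⟨fun u => sInf {m | ∃ w, E w u ∧ κ w = m}, fun u v => ?_⟩
  constructor
  · intro h
    have h1 : sInf {m | ∃ w, E w u ∧ κ w = m} ∈ {m | ∃ w, E w u ∧ κ w = m} :=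
      Nat.sInf_mem ⟨κ u, u, hE.refl u, rfl⟩
    have h2 : sInf {m | ∃ w, E w v ∧ κ w = m} ∈ {m | ∃ w, E w v ∧ κ w = m} :=
      Nat.sInf_mem ⟨κ v, v, hE.refl v, rfl⟩
    obtain ⟨w1, hw1, hw1'⟩ := h1
    obtain ⟨w2, hw2, hw2'⟩ := h2
    have h3 : κ w1 = κ w2 := by
      rw [hw1', hw2']
      exact h
    exact hE.trans (hE.symm hw1) (hE.trans (hκ _ _ h3) hw2)
  · intro h
    have : {m | ∃ w, E w u ∧ κ w = m} = {m | ∃ w, E w v ∧ κ w = m} := by
      ext m
      constructor
      · rintro ⟨w, hw, hm⟩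
        exact ⟨w, hE.trans hw h, hm⟩
      · rintro ⟨w, hw, hm⟩
        exact ⟨w, hE.trans hw (hE.symm h), hm⟩
    show sInf _ = sInf _
    rw [this]

/-- a monotone relation has the property `ConvMono` -/
theorem convMono_of {le R : M → M → Prop} (hr : ∀ x, le x x) (hto : ∀ x y, le x y ∨ le y x)
    (hm : ∀ x' x y y', le x' x → R x y → le y y' → R x' y') : ConvMono le R := by
  refine ⟨fun x y z t h1 h2 h3 h4 => hm x x y z (hr x) h1 h3, fun x x' y y' h1 h2 h3 => ⟨?_, ?_⟩⟩
  · rcases hto y y' with h4 | h4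
    · exact ⟨y', h3, h4⟩
    · exact ⟨y, hm x' x' y' y (hr x') h3 h4, hr y⟩
  · exact ⟨y', hm x x' y' y' h1 h3 (hr y'), hr y'⟩

/-! ### the pieces -/

/-- the pair `a+`, `a-` -/
noncomputable def FF (a : M) : Finset (M × Bool) := by
  classical exact {(a, false), (a, true)}

theorem mem_FF {a : M} {w : M × Bool} : w ∈ FF a ↔ w.1 = a := by
  classical
  unfold FF
  obtain ⟨x, b⟩ := w
  cases b <;> simp

/-- the two copies of `u` and `v` are in the same cells over `a` -/
def Eq2 (le : M → M → Prop) (I J : ℕ → M → M → Prop) (a u v : M) : Prop :=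
  ∀ b, Ce sP (pS le I J) (FF a) (u, b) (v, b)

theorem eq2_equiv (le : M → M → Prop) (I J : ℕ → M → M → Prop) (a : M) :
    Equivalence (Eq2 le I J a) where
  refl u b := Ce.refl _
  symm h b := (h b).symm
  trans h h' b := (h b).trans (h' b)

/-- the piece of `x` -/
def PP (le : M → M → Prop) (I J : ℕ → M → M → Prop) (a x : M) : Set (M × Bool) :=
  Vp sP (pS le I J) (FF a) (x, false)

/-- the projection of the piece -/
def VV (le : M → M → Prop) (I J : ℕ → M → M → Prop) (a x : M) : Set M :=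
  {u | (u, false) ∈ PP le I J a x ∨ (u, true) ∈ PP le I J a x}

open scoped Classical in
/-- the sign -/
noncomputable def sg (le : M → M → Prop) (I J : ℕ → M → M → Prop) (a x u : M) : Bool :=
  if (u, false) ∈ PP le I J a x then false else true

section

variable {le : M → M → Prop} {I J : ℕ → M → M → Prop} {a x : M}

theorem sg_false {u : M} : sg le I J a x u = false ↔ (u, false) ∈ PP le I J a x := by
  unfold sg
  split
  · next h => simp [h]
  · next h => simp [h]

theorem sg_true {u : M} (hu : u ∈ VV le I J a x) :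
    sg le I J a x u = true ↔ (u, false) ∉ PP le I J a x ∧ (u, true) ∈ PP le I J a x := by
  constructor
  · intro h
    have h1 : (u, false) ∉ PP le I J a x := by
      intro h2
      rw [← sg_false] at h2
      rw [h] at h2
      cases h2
    exact ⟨h1, hu.resolve_left h1⟩
  · rintro ⟨h1, h2⟩
    cases hs : sg le I J a x u
    · exact absurd (sg_false.mp hs) h1
    · rfl

end

section

variable {le : M → M → Prop} {I J : ℕ → M → M → Prop} {U : ℕ → M → Prop}
  {S : L.Structure M} {η : Ordinal.{0}} (h : PMD le I J U S η) {a x : M}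

include h

theorem npp {u : M} (h1 : (u, false) ∈ PP le I J a x) : (u, true) ∉ PP le I J a x := by
  intro h2
  have hC := (mon h).cx
  refine npc h (F := FF a) (a := (a, false)) (mem_FF.mpr rfl) u ?_
  exact hC.pctr _ _ _ _ (hC.pcsymm h1) h2

theorem pp_congr {u v : M × Bool} (hc : Ce sP (pS le I J) (FF a) u v) :
    u ∈ PP le I J a x ↔ v ∈ PP le I J a x := by
  have hC := (mon h).cx
  have h1 := hC.cell _ _ _ hc
  exact ⟨fun h2 => hC.pctr _ _ _ _ h2 h1, fun h2 => hC.pctr _ _ _ _ h2 (hC.pcsymm h1)⟩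

theorem vv_congr {u v : M} (hc : Eq2 le I J a u v) :
    u ∈ VV le I J a x ↔ v ∈ VV le I J a x :=
  or_congr (pp_congr h (hc false)) (pp_congr h (hc true))

theorem sg_congr {u v : M} (hc : Eq2 le I J a u v) :
    sg le I J a x u = sg le I J a x v := by
  have h1 := pp_congr h (x := x) (hc false)
  rw [← sg_false, ← sg_false] at h1
  cases h2 : sg le I J a x u <;> cases h3 : sg le I J a x v <;> simp_all

/-- points of the piece and outside the piece -/
theorem crs {u v u' v' : M × Bool} (hu : Ce sP (pS le I J) (FF a) u u')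
    (hv : Ce sP (pS le I J) (FF a) v v')
    (h1 : ¬ (u ∈ PP le I J a x ↔ v ∈ PP le I J a x)) (w : Wp) :
    wp le I J w u v ↔ wp le I J w u' v' := by
  have hC := (mon h).cx
  refine hC.cross _ _ _ _ _ hu hv (fun h2 => h1 ?_) w
  exact ⟨fun h3 => hC.pctr _ _ _ _ h3 h2, fun h3 => hC.pctr _ _ _ _ h3 (hC.pcsymm h2)⟩

/-- relations of a point of the piece with a point outside -/
theorem out {u u' g : M} (hu : u ∈ VV le I J a x) (hg : g ∉ VV le I J a x)
    (hc : Eq2 le I J a u u') (k : ℕ) : (I k u g ↔ I k u' g) ∧ (I k g u ↔ I k g u') ∧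
      (J k u g ↔ J k u' g) ∧ (J k g u ↔ J k g u') := by
  have g1 : (g, false) ∉ PP le I J a x := fun h1 => hg (Or.inl h1)
  have g2 : (g, true) ∉ PP le I J a x := fun h1 => hg (Or.inr h1)
  have rf : ∀ b, Ce sP (pS le I J) (FF a) (g, b) (g, b) := fun b => Ce.refl _
  cases hs : sg le I J a x u
  · have u1 := sg_false.mp hs
    refine ⟨?_, ?_, ?_, ?_⟩
    · have := crs h (x := x) (hc false) (rf false) (by tauto) (.ip k)
      rwa [wp_ip, wp_ip] at this
    · have := crs h (x := x) (rf false) (hc false) (by tauto) (.ip k)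
      rwa [wp_ip, wp_ip] at this
    · have := crs h (x := x) (hc false) (rf true) (by tauto) (.dp k)
      rwa [wp_dp, wp_dp] at this
    · have := crs h (x := x) (rf true) (hc false) (by tauto) (.dm k)
      rwa [wp_dm, wp_dm, not_iff_not] at this
  · obtain ⟨u0, u1⟩ := (sg_true hu).mp hs
    refine ⟨?_, ?_, ?_, ?_⟩
    · have := crs h (x := x) (hc true) (rf true) (by tauto) (.im k)
      rwa [wp_im, wp_im, not_iff_not] at this
    · have := crs h (x := x) (rf true) (hc true) (by tauto) (.im k)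
      rwa [wp_im, wp_im, not_iff_not] at this
    · have := crs h (x := x) (hc true) (rf false) (by tauto) (.dm k)
      rwa [wp_dm, wp_dm, not_iff_not] at this
    · have := crs h (x := x) (rf false) (hc true) (by tauto) (.dp k)
      rwa [wp_dp, wp_dp] at this

end

/-! ### the structure on the projection of a piece -/

/-- the part of an increasing relation which is not determined by the codes -/
def coI (s : M → Bool) (R : M → M → Prop) (u v : M) : Prop :=
  (s u = false ∧ s v = false ∧ R u v) ∨ (s u = true ∧ s v = true ∧ ¬ R u v)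

/-- the part of a decreasing relation which is not determined by the codes -/
def coJ (s : M → Bool) (R : M → M → Prop) (u v : M) : Prop :=
  (s u = false ∧ s v = true ∧ R u v) ∨ (s u = true ∧ s v = false ∧ ¬ R u v)

/-- the new order -/
def nle (le : M → M → Prop) (s : M → Bool) (code : M → ℕ) (u v : M) : Prop :=
  code u < code v ∨ (code u = code v ∧ leP le (u, s u) (v, s v))

/-- the new relations -/
def nrl (code : M → ℕ) (m n : ℕ) (C : M → M → Prop) (u v : M) : Prop :=
  code u < m ∨ n < code v ∨ (code u = m ∧ code v = n ∧ C u v)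

section

variable {le : M → M → Prop} {I J : ℕ → M → M → Prop} {U : ℕ → M → Prop}
  {S : L.Structure M} {η : Ordinal.{0}} (h : PMD le I J U S η) {a x : M} {s : M → Bool}
  {code : M → ℕ} (hs : ∀ u v, code u = code v → s u = s v)

include h

theorem nle_refl (u : M) : nle le s code u u := Or.inr ⟨rfl, leP_refl h.refl _⟩

theorem nle_anti (u v : M) (h1 : nle le s code u v) (h2 : nle le s code v u) : u = v := by
  rcases h1 with h1 | ⟨h1, h1'⟩ <;> rcases h2 with h2 | ⟨h2, h2'⟩
  · omega
  · omega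
  · omega
  · exact congrArg Prod.fst (leP_anti h.anti _ _ h1' h2')

theorem nle_trans (u v w : M) (h1 : nle le s code u v) (h2 : nle le s code v w) :
    nle le s code u w := by
  rcases h1 with h1 | ⟨h1, h1'⟩ <;> rcases h2 with h2 | ⟨h2, h2'⟩
  · exact Or.inl (by omega)
  · exact Or.inl (by omega)
  · exact Or.inl (by omega)
  · exact Or.inr ⟨h1.trans h2, leP_trans h.trans _ _ _ h1' h2'⟩

theorem nle_total (u v : M) : nle le s code u v ∨ nle le s code v u := by
  rcases lt_trichotomy (code u) (code v) with h1 | h1 | h1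
  · exact Or.inl (Or.inl h1)
  · exact (leP_total h.total (u, s u) (v, s v)).imp (fun h2 => Or.inr ⟨h1, h2⟩)
      fun h2 => Or.inr ⟨h1.symm, h2⟩
  · exact Or.inr (Or.inl h1)

include hs

theorem nle_same {u v : M} (h1 : nle le s code u v) (h2 : code u = code v) :
    s u = s v ∧ (s u = false → le u v) ∧ (s u = true → le v u) := by
  rcases h1 with h1 | ⟨-, h1⟩
  · omega
  refine ⟨hs _ _ h2, ?_⟩
  rcases h1 with h1 | ⟨-, h1, h1'⟩
  · rw [hs _ _ h2] at h1
    exact absurd h1 (lt_irrefl _)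
  · exact ⟨h1, h1'⟩

theorem nrl_mono {m n : ℕ} {C : M → M → Prop}
    (hC : ∀ u' u v v', code u' = code u → code v = code v' → nle le s code u' u → C u v →
      nle le s code v v' → C u' v') (u' u v v' : M) (h1 : nle le s code u' u)
    (h2 : nrl code m n C u v) (h3 : nle le s code v v') : nrl code m n C u' v' := by
  have e1 : code u' ≤ code u := by
    rcases h1 with h | ⟨h, -⟩ <;> omega
  have e3 : code v ≤ code v' := by
    rcases h3 with h | ⟨h, -⟩ <;> omega
  rcases h2 with h2 | h2 | ⟨h2, h2', h2''⟩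
  · exact Or.inl (by omega)
  · exact Or.inr (Or.inl (by omega))
  · by_cases h4 : code u' < m
    · exact Or.inl h4
    by_cases h5 : n < code v'
    · exact Or.inr (Or.inl h5)
    have h6 : code u' = code u := by omega
    have h7 : code v = code v' := by omega
    exact Or.inr (Or.inr ⟨h6.trans h2, h7.symm.trans h2', hC _ _ _ _ h6 h7 h1 h2'' h3⟩)

theorem coI_mono (k : ℕ) (u' u v v' : M) (e1 : code u' = code u) (e2 : code v = code v')
    (h1 : nle le s code u' u) (h2 : coI s (I k) u v) (h3 : nle le s code v v') :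
    coI s (I k) u' v' := by
  obtain ⟨a1, a2, a3⟩ := nle_same h hs h1 e1
  obtain ⟨b1, b2, b3⟩ := nle_same h hs h3 e2
  rcases h2 with ⟨c1, c2, c3⟩ | ⟨c1, c2, c3⟩
  · exact Or.inl ⟨a1.trans c1, b1.symm.trans c2,
      h.inc k _ _ _ _ (a2 (a1.trans c1)) c3 (b2 c2)⟩
  · exact Or.inr ⟨a1.trans c1, b1.symm.trans c2, fun h4 =>
      c3 (h.inc k _ _ _ _ (a3 (a1.trans c1)) h4 (b3 c2))⟩

theorem coJ_mono (k : ℕ) (u' u v v' : M) (e1 : code u' = code u) (e2 : code v = code v')
    (h1 : nle le s code u' u) (h2 : coJ s (J k) u v) (h3 : nle le s code v v') :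
    coJ s (J k) u' v' := by
  obtain ⟨a1, a2, a3⟩ := nle_same h hs h1 e1
  obtain ⟨b1, b2, b3⟩ := nle_same h hs h3 e2
  rcases h2 with ⟨c1, c2, c3⟩ | ⟨c1, c2, c3⟩
  · exact Or.inl ⟨a1.trans c1, b1.symm.trans c2,
      h.dec k _ _ _ _ (a2 (a1.trans c1)) c3 (b3 c2)⟩
  · exact Or.inr ⟨a1.trans c1, b1.symm.trans c2, fun h4 =>
      c3 (h.dec k _ _ _ _ (a3 (a1.trans c1)) h4 (b2 c2))⟩

end

/-- the unary relations of the new structure -/
def nU (U : ℕ → M → Prop) (code : M → ℕ) (X : Set M) : ℕ ⊕ ℕ → X → Prop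
  | .inl k, u => U k u
  | .inr m, u => code u = m

/-- the binary relations of the new structure -/
def nR (le : M → M → Prop) (I J : ℕ → M → M → Prop) (s : M → Bool) (code : M → ℕ) (X : Set M) :
    Option (ℕ × ℕ × (ℕ ⊕ ℕ)) → X → X → Prop
  | none, u, v => nle le s code u v
  | some (m, n, .inl k), u, v => nrl code m n (coI s (I k)) u v
  | some (m, n, .inr k), u, v => nrl code m n (coJ s (J k)) u v

end PM

end Pool.Agent.MON
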