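import Pool.Agent.MON.PMb

/-!
# Increasing and decreasing relations: large structures are tame, II
-/

set_option autoImplicit false
set_option linter.unusedSectionVars false
set_option linter.unusedVariables false

namespace Pool.Agent.MON

open Set Pool.Agent.Helper5 Pool.Agent.Helper5.DU Pool.Agent.Helper6.Str
  Pool.Agent.Helper79.VC Pool.Agent.Helper97.VC Pool.Agent.Helper97.MD Pool.Agent.Helper6.VC
  Pool.Agent.Helper97.LO

namespace PM

variable {L : FirstOrder.Language.{0, 0}} {M N : Type}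

section

variable {le : M → M → Prop} {I J : ℕ → M → M → Prop} {U : ℕ → M → Prop}
  {S : L.Structure M} {η : Ordinal.{0}} (h : PMD le I J U S η) {a x : M}

include h

/-- relations inside the projection of the piece -/
theorem ins {u v u' v' : M} (hu : u ∈ VV le I J a x) (hv : v ∈ VV le I J a x)
    (hcu : Eq2 le I J a u u') (hcv : Eq2 le I J a v v') (k : ℕ) :
    ((coI (sg le I J a x) (I k) u v ↔ coI (sg le I J a x) (I k) u' v') →
      (I k u v ↔ I k u' v')) ∧
    ((coJ (sg le I J a x) (J k) u v ↔ coJ (sg le I J a x) (J k) u' v') →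
      (J k u v ↔ J k u' v')) := by
  have su := sg_congr h (x := x) hcu
  have sv := sg_congr h (x := x) hcv
  unfold coI coJ
  rw [← su, ← sv]
  cases hs : sg le I J a x u <;> cases ht : sg le I J a x v
  · have u1 := sg_false.mp hs
    have v1 := sg_false.mp ht
    have v2 := npp h v1
    refine ⟨fun h1 => by simpa using h1, fun _ => ?_⟩
    have := crs h (x := x) (hcu false) (hcv true) (by tauto) (.dp k)
    rwa [wp_dp, wp_dp] at this
  · have u1 := sg_false.mp hs
    obtain ⟨v0, v1⟩ := (sg_true hv).mp ht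
    refine ⟨fun _ => ?_, fun h1 => by simpa using h1⟩
    have := crs h (x := x) (hcu false) (hcv false) (by tauto) (.ip k)
    rwa [wp_ip, wp_ip] at this
  · obtain ⟨u0, u1⟩ := (sg_true hu).mp hs
    have v1 := sg_false.mp ht
    refine ⟨fun _ => ?_, fun h1 => not_iff_not.mp (by simpa using h1)⟩
    have := crs h (x := x) (hcu false) (hcv false) (by tauto) (.ip k)
    rwa [wp_ip, wp_ip] at this
  · obtain ⟨u0, u1⟩ := (sg_true hu).mp hs
    obtain ⟨v0, v1⟩ := (sg_true hv).mp ht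
    refine ⟨fun h1 => not_iff_not.mp (by simpa using h1), fun _ => ?_⟩
    have := crs h (x := x) (hcu false) (hcv true) (by tauto) (.dp k)
    rwa [wp_dp, wp_dp] at this

/-- the new structure determines the old one, together with the identity outside -/
theorem atEq_of_new {code : M → ℕ} (hcode : ∀ u v, code u = code v ↔ Eq2 le I J a u v)
    {p : Set (VV le I J a x × VV le I J a x)} {G : Set M} (hG : ∀ g ∈ G, g ∉ VV le I J a x)
    (hp : AtEq (gS (nU U code (VV le I J a x)) (nR le I J (sg le I J a x) code _))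
      (gS (nU U code (VV le I J a x)) (nR le I J (sg le I J a x) code _)) p) :
    AtEq S S ((fun a => (a.1.1, a.2.1)) '' p ∪ dg G) := by
  rw [atEq_gS] at hp
  obtain ⟨h1, h2, h3⟩ := hp
  have hc : ∀ b ∈ p, code b.1.1 = code b.2.1 := fun b hb => ((h2 b hb (.inr (code b.1.1))).mp rfl).symm
  have key : ∀ c ∈ ((fun a : VV le I J a x × VV le I J a x => (a.1.1, a.2.1)) '' p ∪ dg G),
      ∀ d ∈ ((fun a : VV le I J a x × VV le I J a x => (a.1.1, a.2.1)) '' p ∪ dg G), ∀ k,
      (I k c.1 d.1 ↔ I k c.2 d.2) ∧ (J k c.1 d.1 ↔ J k c.2 d.2) := by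
    rintro c (⟨b, hb, rfl⟩ | ⟨g, hg, rfl⟩) d (⟨b', hb', rfl⟩ | ⟨g', hg', rfl⟩) k
    · have e1 := hc b hb
      have e2 := hc b' hb'
      obtain ⟨i1, i2⟩ := ins h b.1.2 b'.1.2 ((hcode _ _).mp e1) ((hcode _ _).mp e2) k
      refine ⟨i1 ?_, i2 ?_⟩
      · have := h3 b hb b' hb' (some (code b.1.1, code b'.1.1, .inl k))
        have h4 : nrl code (code b.1.1) (code b'.1.1) (coI (sg le I J a x) (I k)) b.1.1 b'.1.1 ↔
          nrl code (code b.1.1) (code b'.1.1) (coI (sg le I J a x) (I k)) b.2.1 b'.2.1 := this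
        unfold nrl at h4
        rw [← e1, ← e2] at h4
        simpa using h4
      · have := h3 b hb b' hb' (some (code b.1.1, code b'.1.1, .inr k))
        have h4 : nrl code (code b.1.1) (code b'.1.1) (coJ (sg le I J a x) (J k)) b.1.1 b'.1.1 ↔
          nrl code (code b.1.1) (code b'.1.1) (coJ (sg le I J a x) (J k)) b.2.1 b'.2.1 := this
        unfold nrl at h4
        rw [← e1, ← e2] at h4
        simpa using h4
    · obtain ⟨o1, o2, o3, o4⟩ := out h b.1.2 (hG g' hg') ((hcode _ _).mp (hc b hb)) k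
      exact ⟨o1, o3⟩
    · obtain ⟨o1, o2, o3, o4⟩ := out h b'.1.2 (hG g hg) ((hcode _ _).mp (hc b' hb')) k
      exact ⟨o2, o4⟩
    · exact ⟨Iff.rfl, Iff.rfl⟩
  have hun : ∀ c ∈ ((fun a : VV le I J a x × VV le I J a x => (a.1.1, a.2.1)) '' p ∪ dg G),
      ∀ k, U k c.1 ↔ U k c.2 := by
    rintro c (⟨b, hb, rfl⟩ | ⟨g, hg, rfl⟩) k
    · exact h2 b hb (.inl k)
    · exact Iff.rfl
  refine ⟨fun c hc' d hd => ?_, fun n r v hv => ?_⟩
  · have k1 := (key c hc' d hd 0).1
    have k2 := (key d hd c hc' 0).1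
    rw [h.zero, h.zero] at k1 k2
    constructor
    · intro e
      rw [e] at k1 k2
      exact h.anti _ _ (k1.mp (h.refl _)) (k2.mp (h.refl _))
    · intro e
      rw [e] at k1 k2
      exact h.anti _ _ (k1.mpr (h.refl _)) (k2.mpr (h.refl _))
  · exact h.atom n r _ _ (fun i k => hun _ (hv i) k) (fun i j k => (key _ (hv i) _ (hv j) k).1)
      fun i j k => (key _ (hv i) _ (hv j) k).2

/-- pairs of a map which is the identity at `a` have the same code -/
theorem eq2_of_bfr {p : Set (M × M)} (hp : BFR S S univ univ (η + Ordinal.omega0) p)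
    (ha : (a, a) ∈ p) {u u' : M} (hu : (u, u') ∈ p) : Eq2 le I J a u u' := by
  have h1 := atEq_dbl h hp
  rintro b ⟨w, c⟩ hw i
  rw [mem_FF] at hw
  dsimp only at hw
  subst hw
  exact (rl_congr (σ := sP) h1 (x := (w, c)) (x' := (w, c)) (u := (u, b)) (u' := (u', b))
    ⟨ha, rfl⟩ ⟨hu, rfl⟩ i)

/-- the projection of the piece is definable -/
theorem vv_of_bfr {p : Set (M × M)} (hp : BFR S S univ univ (η + Ordinal.omega0) p)
    (ha : (a, a) ∈ p) {u u' : M} (hu : (u, u') ∈ p) :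
    u ∈ VV le I J a x ↔ u' ∈ VV le I J a x :=
  vv_congr h (eq2_of_bfr h hp ha hu)

theorem lev_lt : η + Ordinal.omega0 < om1 := add_lt_om1 h.lt omega_lt_om1

/-- the new structure is definable -/
theorem new_of_bfr {code : M → ℕ} (hcode : ∀ u v, code u = code v ↔ Eq2 le I J a u v)
    {p : Set (VV le I J a x × VV le I J a x)}
    (hp : BFR S S univ univ (η + Ordinal.omega0)
      ((fun a => (a.1.1, a.2.1)) '' p ∪ dg (({a} : Finset M) : Set M))) :
    AtEq (gS (nU U code (VV le I J a x)) (nR le I J (sg le I J a x) code _))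
      (gS (nU U code (VV le I J a x)) (nR le I J (sg le I J a x) code _)) p := by
  have hm : ∀ b ∈ p, (b.1.1, b.2.1) ∈ ((fun a : VV le I J a x × VV le I J a x =>
      (a.1.1, a.2.1)) '' p ∪ dg (({a} : Finset M) : Set M)) := fun b hb => Or.inl ⟨b, hb, rfl⟩
  have ha : (a, a) ∈ ((fun a : VV le I J a x × VV le I J a x =>
      (a.1.1, a.2.1)) '' p ∪ dg (({a} : Finset M) : Set M)) := Or.inr ⟨a, by simp, rfl⟩
  have hE : ∀ b ∈ p, Eq2 le I J a b.1.1 b.2.1 := fun b hb => eq2_of_bfr h hp ha (hm b hb)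
  have hc : ∀ b ∈ p, code b.1.1 = code b.2.1 := fun b hb => (hcode _ _).mpr (hE b hb)
  have hsg : ∀ b ∈ p, sg le I J a x b.1.1 = sg le I J a x b.2.1 :=
    fun b hb => sg_congr h (hE b hb)
  have hb0 := fun b hb => h.dfn _ (hp.mono le_self_add) _ (hm b hb)
  have hI : ∀ b ∈ p, ∀ b' ∈ p, ∀ k, I k b.1.1 b'.1.1 ↔ I k b.2.1 b'.2.1 :=
    fun b hb b' hb' k => ((hb0 b hb).2 _ (hm b' hb')).1 k
  have hJ : ∀ b ∈ p, ∀ b' ∈ p, ∀ k, J k b.1.1 b'.1.1 ↔ J k b.2.1 b'.2.1 :=
    fun b hb b' hb' k => ((hb0 b hb).2 _ (hm b' hb')).2 k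
  rw [atEq_gS]
  refine ⟨fun b hb b' hb' => ?_, fun b hb k => ?_, fun b hb b' hb' k => ?_⟩
  · rw [← Subtype.coe_inj, ← Subtype.coe_inj]
    exact hp.atEq.1 _ (hm b hb) _ (hm b' hb')
  · match k with
    | .inl k => exact (hb0 b hb).1 k
    | .inr m =>
      show code b.1.1 = m ↔ code b.2.1 = m
      rw [hc b hb]
  · match k with
    | none =>
      show nle le _ code b.1.1 b'.1.1 ↔ nle le _ code b.2.1 b'.2.1
      have k1 := hI b hb b' hb' 0
      have k2 := hI b' hb' b hb 0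
      rw [h.zero, h.zero] at k1 k2
      unfold nle leP
      simp only [hc b hb, hc b' hb', hsg b hb, hsg b' hb', k1, k2]
    | some (m, n, .inl k) =>
      show nrl code m n (coI _ (I k)) b.1.1 b'.1.1 ↔ nrl code m n (coI _ (I k)) b.2.1 b'.2.1
      unfold nrl coI
      simp only [hc b hb, hc b' hb', hsg b hb, hsg b' hb', hI b hb b' hb' k]
    | some (m, n, .inr k) =>
      show nrl code m n (coJ _ (J k)) b.1.1 b'.1.1 ↔ nrl code m n (coJ _ (J k)) b.2.1 b'.2.1
      unfold nrl coJ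
      simp only [hc b hb, hc b' hb', hsg b hb, hsg b' hb', hJ b hb b' hb' k]

theorem new_lift {code : M → ℕ} (hcode : ∀ u v, code u = code v ↔ Eq2 le I J a u v)
    (γ : Ordinal.{0}) : ∀ {p : Set (VV le I J a x × VV le I J a x)} {G : Set M},
    (∀ g ∈ G, g ∉ VV le I J a x) →
    BFR (gS (nU U code (VV le I J a x)) (nR le I J (sg le I J a x) code _))
      (gS (nU U code (VV le I J a x)) (nR le I J (sg le I J a x) code _)) univ univ γ p →
    BFR S S univ univ γ ((fun a => (a.1.1, a.2.1)) '' p ∪ dg G) := by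
  induction γ using WellFoundedLT.induction with
  | _ γ ih =>
    intro p G hG hp
    rw [BFR.def]
    refine ⟨atEq_of_new h hcode hG hp.atEq, fun β hβ => ⟨fun c _ => ?_, fun c _ => ?_⟩⟩
    · by_cases hc : c ∈ VV le I J a x
      · obtain ⟨d, -, hd⟩ := hp.forth hβ (mem_univ (⟨c, hc⟩ : VV le I J a x))
        refine ⟨d.1, mem_univ _, BFR.anti ?_ (ih β hβ hG hd)⟩
        rintro z (rfl | ⟨b, hb, rfl⟩ | hz)
        · exact Or.inl ⟨_, mem_insert _ _, rfl⟩
        · exact Or.inl ⟨b, mem_insert_of_mem _ hb, rfl⟩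
        · exact Or.inr hz
      · refine ⟨c, mem_univ _, BFR.anti ?_ (ih β hβ (G := insert c G) ?_ (hp.mono hβ.le))⟩
        · rintro z (rfl | ⟨b, hb, rfl⟩ | ⟨g, hg, rfl⟩)
          · exact Or.inr ⟨c, mem_insert _ _, rfl⟩
          · exact Or.inl ⟨b, hb, rfl⟩
          · exact Or.inr ⟨g, mem_insert_of_mem _ hg, rfl⟩
        · rintro g (rfl | hg)
          · exact hc
          · exact hG g hg
    · by_cases hc : c ∈ VV le I J a x
      · obtain ⟨d, -, hd⟩ := hp.back hβ (mem_univ (⟨c, hc⟩ : VV le I J a x))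
        refine ⟨d.1, mem_univ _, BFR.anti ?_ (ih β hβ hG hd)⟩
        rintro z (rfl | ⟨b, hb, rfl⟩ | hz)
        · exact Or.inl ⟨_, mem_insert _ _, rfl⟩
        · exact Or.inl ⟨b, mem_insert_of_mem _ hb, rfl⟩
        · exact Or.inr hz
      · refine ⟨c, mem_univ _, BFR.anti ?_ (ih β hβ (G := insert c G) ?_ (hp.mono hβ.le))⟩
        · rintro z (rfl | ⟨b, hb, rfl⟩ | ⟨g, hg, rfl⟩)
          · exact Or.inr ⟨c, mem_insert _ _, rfl⟩
          · exact Or.inl ⟨b, hb, rfl⟩
          · exact Or.inr ⟨g, mem_insert_of_mem _ hg, rfl⟩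
        · rintro g (rfl | hg)
          · exact hc
          · exact hG g hg

variable [∀ n, IsEmpty (L.Functions n)] [∀ n, Countable (L.Relations n)]
  {K : Set (L.Structure ℕ)} {δ : Ordinal.{0}}

theorem tt_vv (hS : VSt K δ S) {code : M → ℕ}
    (hcode : ∀ u v, code u = code v ↔ Eq2 le I J a u v) : TT S (VV le I J a x) := by
  classical
  by_cases hfin : (VV le I J a x).Finite
  · have := hfin.countable.to_subtype
    obtain ⟨e, he⟩ := exists_injective_nat (VV le I J a x)
    intro F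
    refine ⟨fun u => if hu : u ∈ VV le I J a x then e ⟨u, hu⟩ else 0, ?_⟩
    intro c hc c' hc' hcc γ hγ
    simp only [hc, hc', dif_pos] at hcc
    have h1 : c = c' := congrArg Subtype.val (he hcc)
    subst h1
    refine BFR.refl S univ γ ?_
    rintro z (rfl | ⟨b, hb, rfl⟩)
    · exact ⟨mem_univ _, rfl⟩
    · exact ⟨mem_univ _, rfl⟩
  have : Infinite (VV le I J a x) := infinite_coe_iff.mpr hfin
  have hs : ∀ u v, code u = code v → sg le I J a x u = sg le I J a x v :=
    fun u v huv => sg_congr h ((hcode _ _).mp huv)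
  obtain ⟨K', δ', hV⟩ := VSt.interp (L' := LG (ℕ ⊕ ℕ) (Option (ℕ × ℕ × (ℕ ⊕ ℕ))))
    (S' := gS (nU U code (VV le I J a x)) (nR le I J (sg le I J a x) code _)) hS
    (Subtype.val : VV le I J a x → M) Subtype.val_injective ({a} : Finset M) (lev_lt h)
    (fun c c' hb => by
      rw [Subtype.range_val]
      exact vv_of_bfr h hb (mem_insert_of_mem _ ⟨a, by simp, rfl⟩) (mem_insert _ _))
    (fun p _ hb => new_of_bfr h hcode hb)
    (fun p _ hp G hG => atEq_of_new h hcode (fun g hg hg' => hG g hg ⟨⟨g, hg'⟩, rfl⟩) hp)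
  have ht : TT (gS (nU U code (VV le I J a x)) (nR le I J (sg le I J a x) code
      (VV le I J a x)) : (LG (ℕ ⊕ ℕ) (Option (ℕ × ℕ × (ℕ ⊕ ℕ)))).Structure (VV le I J a x))
      univ := by
    refine tt_of_convMono mainStatement (lg_ar2 _ _) hV
      (none : Option (ℕ × ℕ × (ℕ ⊕ ℕ))) ?_ ?_ ?_ ?_ ?_
    · exact fun u => nle_refl h u.1
    · exact fun u v h1 h2 => Subtype.ext (nle_anti h u.1 v.1 h1 h2)
    · exact fun u v w h1 h2 => nle_trans h u.1 v.1 w.1 h1 h2
    · exact fun u v => nle_total h u.1 v.1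
    · intro R
      refine convMono_of (fun u => nle_refl h u.1) (fun u v => nle_total h u.1 v.1) ?_
      intro u' u v v' h1 h2 h3
      match R with
      | none => exact nle_trans h _ _ _ h1 (nle_trans h _ _ _ h2 h3)
      | some (m, n, .inl k) =>
        exact nrl_mono h hs (coI_mono h hs k) _ _ _ _ h1 h2 h3
      | some (m, n, .inr k) =>
        exact nrl_mono h hs (coJ_mono h hs k) _ _ _ _ h1 h2 h3
  intro F
  obtain ⟨κ, hκ⟩ := ht (F.subtype (· ∈ VV le I J a x))
  refine ⟨fun u => if hu : u ∈ VV le I J a x then κ ⟨u, hu⟩ else 0, ?_⟩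
  intro c hc c' hc' hcc γ hγ
  simp only [hc, hc', dif_pos] at hcc
  have h1 := new_lift h hcode (G := (F : Set M) \ VV le I J a x) γ (fun g hg => hg.2)
    (hκ ⟨c, hc⟩ (mem_univ _) ⟨c', hc'⟩ (mem_univ _) hcc γ hγ)
  refine BFR.anti ?_ h1
  rintro z (rfl | ⟨b, hb, rfl⟩)
  · exact Or.inl ⟨_, mem_insert _ _, rfl⟩
  · by_cases hb' : b ∈ VV le I J a x
    · refine Or.inl ⟨(⟨b, hb'⟩, ⟨b, hb'⟩), mem_insert_of_mem _ ⟨⟨b, hb'⟩, ?_, rfl⟩, rfl⟩
      simpa using hb
    · exact Or.inr ⟨b, ⟨hb, hb'⟩, rfl⟩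

/-- **Large linear orders with increasing and decreasing relations are tame.** -/
theorem tt_of_pmd (hS : VSt K δ S) : TT S univ := by
  classical
  have : Infinite M := infinite_of_lev hS.lev
  obtain ⟨a⟩ : Nonempty M := inferInstance
  obtain ⟨κ, hκ⟩ := hS.code (lev_lt h) 2
  obtain ⟨code, hcode⟩ := exists_code (eq2_equiv le I J a) (fun u => κ ![a, u]) (by
    intro u v huv
    refine eq2_of_bfr h (hκ _ _ huv) ?_ ?_
    · exact ⟨0, rfl⟩
    · exact ⟨1, rfl⟩)
  -- representatives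
  have hrep : ∀ m, ∃ x, ∀ u, code u = m → code x = m := by
    intro m
    by_cases hm : ∃ u, code u = m
    · obtain ⟨u, hu⟩ := hm
      exact ⟨u, fun _ _ => hu⟩
    · exact ⟨a, fun u hu => absurd ⟨u, hu⟩ hm⟩
  choose rep hrep using hrep
  have hmem : ∀ u, u ∈ VV le I J a (rep (code u)) := by
    intro u
    have h1 : code (rep (code u)) = code u := hrep _ u rfl
    have h2 := (hcode _ _).mp h1
    exact Or.inl ((mon h).cx.cell _ _ _ (h2 false))
  intro F
  have ht := fun m => tt_vv h (x := rep m) hS hcode F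
  choose κ' hκ' using ht
  refine ⟨fun u => Nat.pair (code u) (κ' (code u) u), ?_⟩
  intro c _ c' _ hcc γ hγ
  obtain ⟨h1, h2⟩ := Nat.pair_eq_pair.mp hcc
  refine hκ' (code c) c (hmem c) c' ?_ ?_ γ hγ
  · rw [h1]
    exact hmem c'
  · rw [h2, h1]

end

end PM

end Pool.Agent.MON
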