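import Pool.Agent.MON.PMc

/-!
# Convex relations with increasing or decreasing ends
-/

set_option autoImplicit false
set_option linter.unusedSectionVars false
set_option linter.unusedVariables false
set_option warn.classDefReducibility false

namespace Pool.Agent.MON

open Set Pool.Agent.Helper5 Pool.Agent.Helper5.DU Pool.Agent.Helper6.Str
  Pool.Agent.Helper79.VC Pool.Agent.Helper97.VC Pool.Agent.Helper97.MD Pool.Agent.Helper6.VC
  Pool.Agent.Helper97.LO

variable {L : FirstOrder.Language.{0, 0}} {M N : Type}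

/-- `R` is a relation with convex fibres whose ends move downwards. -/
def ConvAnti (le R : M → M → Prop) : Prop :=
  (∀ x y z t, R x y → R x t → le y z → le z t → R x z) ∧
  ∀ x x' y y', le x x' → R x y → R x' y' →
    (∃ t, R x t ∧ le y' t) ∧ ∃ t, R x' t ∧ le t y

/-- the complement of the set above the lower ends, for decreasing ends -/
def loA (le R : M → M → Prop) (x y : M) : Prop := ¬ ∃ s, le s x ∧ ∃ t, le t y ∧ R s t

/-- the set below the upper ends, for decreasing ends -/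
def upA (le R : M → M → Prop) (x y : M) : Prop := ∃ s, le x s ∧ ∃ t, le y t ∧ R s t

theorem convAnti_iff {le R : M → M → Prop} (h : ConvAnti le R) (hr : ∀ x, le x x)
    (ht : ∀ x y z, le x y → le y z → le x z)
    {x : M} (hx : ∃ y, R x y) (y : M) : R x y ↔ ¬ loA le R x y ∧ upA le R x y := by
  constructor
  · intro h1
    exact ⟨fun h2 => h2 ⟨x, hr x, y, hr y, h1⟩, ⟨x, hr x, y, hr y, h1⟩⟩
  · rintro ⟨h1, ⟨s', hs', t', ht', h3⟩⟩
    obtain ⟨s, hs, t, ht'', h2⟩ := not_not.mp h1
    obtain ⟨y0, hy0⟩ := hx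
    -- `s ≤ x`, `R s t`, `t ≤ y`
    obtain ⟨-, t1, h4, h5⟩ := h.2 s x t y0 hs h2 hy0
    obtain ⟨⟨t2, h6, h7⟩, -⟩ := h.2 x s' y0 t' hs' hy0 h3
    exact h.1 x t1 y t2 h4 h6 (ht _ _ _ h5 ht'') (ht _ _ _ ht' h7)

/-- convex fibres, the ends move in one direction -/
def ConvPM (le R : M → M → Prop) : Prop := ConvMono le R ∨ ConvAnti le R

theorem convPM_iff {le R : M → M → Prop} (h : ConvPM le R) (hr : ∀ x, le x x)
    (ht : ∀ x y z, le x y → le y z → le x z) :
    (∀ x, (∃ y, R x y) → ∀ y, R x y ↔ loE le R x y ∧ ¬ upE le R x y) ∨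
      ∀ x, (∃ y, R x y) → ∀ y, R x y ↔ ¬ loA le R x y ∧ upA le R x y :=
  h.imp (fun h x hx y => convMono_iff h hr ht hx y) fun h x hx y => convAnti_iff h hr ht hx y

namespace PM

section

variable {le : M → M → Prop} (R : ℕ → M → M → Prop)

/-- the increasing relations -/
def fI (le : M → M → Prop) (R : ℕ → M → M → Prop) : ℕ → M → M → Prop
  | 0 => le
  | k + 1 => if k % 2 = 0 then loE le (R (k / 2)) else upE le (R (k / 2))

/-- the decreasing relations -/
def fJ (le : M → M → Prop) (R : ℕ → M → M → Prop) (k : ℕ) : M → M → Prop :=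
  if k % 2 = 0 then loA le (R (k / 2)) else upA le (R (k / 2))

/-- the predicates -/
def fU (U : ℕ → M → Prop) (R : ℕ → M → M → Prop) (k : ℕ) (x : M) : Prop :=
  if k % 2 = 0 then U (k / 2) x else ∃ y, R (k / 2) x y

theorem fI_a (k : ℕ) : fI le R (2 * k + 1) = loE le (R k) := by
  have e : (2 * k) % 2 = 0 := by omega
  have e' : (2 * k) / 2 = k := by omega
  show (if (2 * k) % 2 = 0 then _ else _) = _
  rw [if_pos e, e']

theorem fI_b (k : ℕ) : fI le R (2 * k + 2) = upE le (R k) := by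
  have e : ¬ (2 * k + 1) % 2 = 0 := by omega
  have e' : (2 * k + 1) / 2 = k := by omega
  show (if (2 * k + 1) % 2 = 0 then _ else _) = _
  rw [if_neg e, e']

theorem fJ_a (k : ℕ) : fJ le R (2 * k) = loA le (R k) := by
  have e : (2 * k) % 2 = 0 := by omega
  have e' : (2 * k) / 2 = k := by omega
  unfold fJ
  rw [if_pos e, e']

theorem fJ_b (k : ℕ) : fJ le R (2 * k + 1) = upA le (R k) := by
  have e : ¬ (2 * k + 1) % 2 = 0 := by omega
  have e' : (2 * k + 1) / 2 = k := by omega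
  unfold fJ
  rw [if_neg e, e']

theorem fU_a (U : ℕ → M → Prop) (k : ℕ) (x : M) : fU U R (2 * k) x ↔ U k x := by
  have e : (2 * k) % 2 = 0 := by omega
  have e' : (2 * k) / 2 = k := by omega
  unfold fU
  rw [if_pos e, e']

theorem fU_b (U : ℕ → M → Prop) (k : ℕ) (x : M) : fU U R (2 * k + 1) x ↔ ∃ y, R k x y := by
  have e : ¬ (2 * k + 1) % 2 = 0 := by omega
  have e' : (2 * k + 1) / 2 = k := by omega
  unfold fU
  rw [if_neg e, e']

end

end PM

/-- The formula `lam` defines a linear order, the formulas `R n` define convex relations with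
ends moving in one direction, and the atomic facts are determined. -/
structure PMDef (lam : FmI L 2) (R : ℕ → FmI L 2) (U : ℕ → FmI L 1) (S : L.Structure M) :
    Prop where
  refl : ∀ x, rl2 S lam x x
  anti : ∀ x y, rl2 S lam x y → rl2 S lam y x → x = y
  trans : ∀ x y z, rl2 S lam x y → rl2 S lam y z → rl2 S lam x z
  total : ∀ x y, rl2 S lam x y ∨ rl2 S lam y x
  conv : ∀ n, ConvPM (rl2 S lam) (rl2 S (R n))
  atom : AtomDet lam R U S

section

variable {lam : FmI L 2} {R : ℕ → FmI L 2} {U : ℕ → FmI L 1} {S : L.Structure M}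

private theorem pmd_ex {γ β : Ordinal.{0}} (hβ : β < γ) {p : Set (M × M)}
    (h : BFR S S univ univ γ p) {A : M → Prop} {B : M → Prop}
    (hAB : ∀ z z', BFR S S univ univ β (insert (z, z') p) → (A z ↔ B z')) :
    (∃ z, A z) ↔ ∃ z, B z := by
  constructor
  · rintro ⟨z, hz⟩
    obtain ⟨z', -, h'⟩ := h.forth hβ (mem_univ z)
    exact ⟨z', (hAB _ _ h').mp hz⟩
  · rintro ⟨z', hz⟩
    obtain ⟨z, -, h'⟩ := h.back hβ (mem_univ z')
    exact ⟨z, (hAB _ _ h').mpr hz⟩

private theorem pmd_ends {η γ : Ordinal.{0}} (hη : η + 1 + 1 ≤ γ) (e1 : ordOf (rk lam) ≤ η)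
    (e2 : ∀ n, ordOf (rk (R n)) ≤ η) {p : Set (M × M)} (hp : BFR S S univ univ γ p) {x y x' y' : M}
    (hx : (x, x') ∈ p) (hy : (y, y') ∈ p) (n : ℕ) :
    (loE (rl2 S lam) (rl2 S (R n)) x y ↔ loE (rl2 S lam) (rl2 S (R n)) x' y') ∧
    (upE (rl2 S lam) (rl2 S (R n)) x y ↔ upE (rl2 S lam) (rl2 S (R n)) x' y') ∧
    (loA (rl2 S lam) (rl2 S (R n)) x y ↔ loA (rl2 S lam) (rl2 S (R n)) x' y') ∧
    (upA (rl2 S lam) (rl2 S (R n)) x y ↔ upA (rl2 S lam) (rl2 S (R n)) x' y') := by
  have h1 : η + 1 < γ := lt_of_lt_of_le (lt_add_one_self _) hη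
  have h2 : η < η + 1 := lt_add_one_self η
  refine ⟨?_, ?_, ?_, ?_⟩
  · refine pmd_ex h1 hp fun s s' hs => ?_
    refine and_congr (sat2_of_bfr lam (e1.trans h2.le) hs (mem_insert_of_mem _ hx)
      (mem_insert _ _)) (pmd_ex h2 hs fun t t' ht => ?_)
    exact and_congr (sat2_of_bfr lam e1 ht (mem_insert _ _)
      (mem_insert_of_mem _ (mem_insert_of_mem _ hy)))
      (sat2_of_bfr (R n) (e2 n) ht (mem_insert_of_mem _ (mem_insert _ _)) (mem_insert _ _))
  · refine not_congr (pmd_ex h1 hp fun s s' hs => ?_)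
    refine and_congr (sat2_of_bfr lam (e1.trans h2.le) hs (mem_insert _ _)
      (mem_insert_of_mem _ hx)) (pmd_ex h2 hs fun t t' ht => ?_)
    exact and_congr (sat2_of_bfr lam e1 ht (mem_insert_of_mem _ (mem_insert_of_mem _ hy))
      (mem_insert _ _))
      (sat2_of_bfr (R n) (e2 n) ht (mem_insert_of_mem _ (mem_insert _ _)) (mem_insert _ _))
  · refine not_congr (pmd_ex h1 hp fun s s' hs => ?_)
    refine and_congr (sat2_of_bfr lam (e1.trans h2.le) hs (mem_insert _ _)
      (mem_insert_of_mem _ hx)) (pmd_ex h2 hs fun t t' ht => ?_)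
    exact and_congr (sat2_of_bfr lam e1 ht (mem_insert _ _)
      (mem_insert_of_mem _ (mem_insert_of_mem _ hy)))
      (sat2_of_bfr (R n) (e2 n) ht (mem_insert_of_mem _ (mem_insert _ _)) (mem_insert _ _))
  · refine pmd_ex h1 hp fun s s' hs => ?_
    refine and_congr (sat2_of_bfr lam (e1.trans h2.le) hs (mem_insert_of_mem _ hx)
      (mem_insert _ _)) (pmd_ex h2 hs fun t t' ht => ?_)
    exact and_congr (sat2_of_bfr lam e1 ht (mem_insert_of_mem _ (mem_insert_of_mem _ hy))
      (mem_insert _ _))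
      (sat2_of_bfr (R n) (e2 n) ht (mem_insert_of_mem _ (mem_insert _ _)) (mem_insert _ _))

theorem pmd_of_pmDef (h : PMDef lam R U S) : ∃ η, PM.PMD (rl2 S lam)
    (PM.fI (rl2 S lam) fun n => rl2 S (R n)) (PM.fJ (rl2 S lam) fun n => rl2 S (R n))
    (PM.fU (fun n => rl1 S (U n)) fun n => rl2 S (R n)) S η := by
  obtain ⟨η, hη, e1, e2, e3, e4, e5⟩ := exists_wlev lam R U
  refine ⟨η + 1 + 1, h.refl, h.anti, h.trans, h.total, ?_, ?_, fun x y => Iff.rfl, ?_,
    add_one_lt_om1 (add_one_lt_om1 hη), ?_⟩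
  · intro n x' x y y' h1 h2 h3
    rcases n with _ | n
    · exact h.trans _ _ _ h1 (h.trans _ _ _ h2 h3)
    rcases Nat.even_or_odd' n with ⟨k, rfl | rfl⟩
    · rw [PM.fI_a] at h2 ⊢
      obtain ⟨s, hs, t, ht, h4⟩ := h2
      exact ⟨s, h.trans _ _ _ h1 hs, t, h.trans _ _ _ ht h3, h4⟩
    · rw [PM.fI_b] at h2 ⊢
      rintro ⟨s, hs, t, ht, h4⟩
      exact h2 ⟨s, h.trans _ _ _ hs h1, t, h.trans _ _ _ h3 ht, h4⟩
  · intro n x' x y y' h1 h2 h3
    rcases Nat.even_or_odd' n with ⟨k, rfl | rfl⟩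
    · rw [PM.fJ_a] at h2 ⊢
      rintro ⟨s, hs, t, ht, h4⟩
      exact h2 ⟨s, h.trans _ _ _ hs h1, t, h.trans _ _ _ ht h3, h4⟩
    · rw [PM.fJ_b] at h2 ⊢
      obtain ⟨s, hs, t, ht, h4⟩ := h2
      exact ⟨s, h.trans _ _ _ h1 hs, t, h.trans _ _ _ h3 ht, h4⟩
  · intro n r v w h1 h2 h3
    refine h.atom n r v w (fun i k => ?_) (fun i j => h2 i j 0) fun i j k => ?_
    · have := h1 i (2 * k)
      rwa [PM.fU_a, PM.fU_a] at this
    · have hd := h1 i (2 * k + 1)
      rw [PM.fU_b, PM.fU_b] at hd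
      have ha := h2 i j (2 * k + 1)
      have hb := h2 i j (2 * k + 2)
      have hc := h3 i j (2 * k)
      have hd' := h3 i j (2 * k + 1)
      rw [PM.fI_a] at ha
      rw [PM.fI_b] at hb
      rw [PM.fJ_a] at hc
      rw [PM.fJ_b] at hd'
      rcases convPM_iff (h.conv k) h.refl h.trans with h4 | h4
      · constructor
        · intro h5
          have h6 : ∃ y, rl2 S (R k) (v i) y := ⟨_, h5⟩
          rw [h4 _ h6, ha, hb, ← h4 _ (hd.mp h6)] at h5
          exact h5
        · intro h5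
          have h6 : ∃ y, rl2 S (R k) (w i) y := ⟨_, h5⟩
          rw [h4 _ h6, ← ha, ← hb, ← h4 _ (hd.mpr h6)] at h5
          exact h5
      · constructor
        · intro h5
          have h6 : ∃ y, rl2 S (R k) (v i) y := ⟨_, h5⟩
          rw [h4 _ h6, hc, hd', ← h4 _ (hd.mp h6)] at h5
          exact h5
        · intro h5
          have h6 : ∃ y, rl2 S (R k) (w i) y := ⟨_, h5⟩
          rw [h4 _ h6, ← hc, ← hd', ← h4 _ (hd.mpr h6)] at h5
          exact h5
  · intro p hp a ha
    refine ⟨fun k => ?_, fun b hb => ⟨fun k => ?_, fun k => ?_⟩⟩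
    · rcases Nat.even_or_odd' k with ⟨k, rfl | rfl⟩
      · rw [PM.fU_a, PM.fU_a]
        exact sat1_of_bfr (U k) ((e3 k).trans ((lt_add_one_self _).le.trans
          (lt_add_one_self _).le)) hp ha
      · rw [PM.fU_b, PM.fU_b]
        refine pmd_ex (lt_add_one_self _) hp fun z z' hz => ?_
        exact sat2_of_bfr (R k) ((e2 k).trans (lt_add_one_self _).le) hz
          (mem_insert_of_mem _ ha) (mem_insert _ _)
    · rcases k with _ | k
      · exact sat2_of_bfr lam (e1.trans ((lt_add_one_self _).le.trans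
          (lt_add_one_self _).le)) hp ha hb
      rcases Nat.even_or_odd' k with ⟨k, rfl | rfl⟩
      · rw [PM.fI_a]
        exact (pmd_ends le_rfl e1 e2 hp ha hb k).1
      · rw [PM.fI_b]
        exact (pmd_ends le_rfl e1 e2 hp ha hb k).2.1
    · rcases Nat.even_or_odd' k with ⟨k, rfl | rfl⟩
      · rw [PM.fJ_a]
        exact (pmd_ends le_rfl e1 e2 hp ha hb k).2.2.1
      · rw [PM.fJ_b]
        exact (pmd_ends le_rfl e1 e2 hp ha hb k).2.2.2

/-- **Large structures with a definable linear order and definable convex relations with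
increasing or decreasing ends.** -/
theorem tt_of_pmDef [∀ n, IsEmpty (L.Functions n)] [∀ n, Countable (L.Relations n)]
    {K : Set (L.Structure ℕ)} {δ : Ordinal.{0}} (hS : VSt K δ S) (hM : PMDef lam R U S) :
    TT S univ := by
  obtain ⟨η, h⟩ := pmd_of_pmDef hM
  exact PM.tt_of_pmd h hS

end

private theorem pmd_enum {A : Type} [Countable A] {B : Type} (f : A → B) (b : B) :
    ∃ g : ℕ → B, (∀ a, ∃ n, g n = f a) ∧ ∀ n, g n = b ∨ ∃ a, g n = f a := by
  rcases isEmpty_or_nonempty A with hA | hA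
  · exact ⟨fun _ => b, fun a => (hA.false a).elim, fun _ => Or.inl rfl⟩
  · obtain ⟨e, he⟩ := exists_surjective_nat A
    exact ⟨fun n => f (e n), fun a => (he a).imp fun n hn => congrArg f hn,
      fun n => Or.inr ⟨e n, rfl⟩⟩

/-- **The same for a language with unary and binary symbols, one of which is the order.** -/
theorem tt_of_convPM (hL : Ar2 L) [∀ n, IsEmpty (L.Functions n)]
    [∀ n, Countable (L.Relations n)] {K : Set (L.Structure ℕ)} {δ : Ordinal.{0}}
    {S : L.Structure M} (hS : VSt K δ S) (le : L.Relations 2)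
    (hr : ∀ x, S.RelMap le ![x, x])
    (ha : ∀ x y, S.RelMap le ![x, y] → S.RelMap le ![y, x] → x = y)
    (ht : ∀ x y z, S.RelMap le ![x, y] → S.RelMap le ![y, z] → S.RelMap le ![x, z])
    (hto : ∀ x y, S.RelMap le ![x, y] ∨ S.RelMap le ![y, x])
    (hc : ∀ R : L.Relations 2, ConvPM (fun x y => S.RelMap le ![x, y])
      fun x y => S.RelMap R ![x, y]) : TT S univ := by
  let at2 : L.Relations 2 → FmI L 2 := fun R => .rel R id
  obtain ⟨R, hR1, hR2⟩ := pmd_enum at2 (at2 le)
  obtain ⟨U, hU1, hU2⟩ := pmd_enum (fun U : L.Relations 1 => (.rel U id : FmI L 1)) (.eq 0 0)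
  have hM : PMDef (at2 le) R U S := by
    refine ⟨hr, ha, ht, hto, fun n => ?_, fun n r v w h1 h2 h3 => ?_⟩
    · rcases hR2 n with h | ⟨r, h⟩
      · rw [h]
        exact hc le
      · rw [h]
        exact hc r
    · by_cases hn1 : n = 1
      · subst hn1
        obtain ⟨k, hk⟩ := hU1 r
        have h4 := h1 0 k
        rw [hk] at h4
        have ev : ∀ v : Fin 1 → M, ![v 0] = v := by
          intro v
          funext i
          match i with
          | 0 => rfl
        have h5 : S.RelMap r ![v 0] ↔ S.RelMap r ![w 0] := h4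
        rwa [ev v, ev w] at h5
      by_cases hn2 : n = 2
      · subst hn2
        obtain ⟨k, hk⟩ := hR1 r
        have h4 := h3 0 1 k
        rw [hk] at h4
        have ev : ∀ v : Fin 2 → M, ![v 0, v 1] = v := by
          intro v
          funext i
          match i with
          | 0 => rfl
          | 1 => rfl
        have h5 : S.RelMap r ![v 0, v 1] ↔ S.RelMap r ![w 0, w 1] := h4
        rwa [ev v, ev w] at h5
      exact ((hL n hn1 hn2).false r).elim
  exact tt_of_pmDef hS hM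

/-- a decreasing relation has the property `ConvAnti` -/
theorem convAnti_of {le R : M → M → Prop} (hr : ∀ x, le x x) (hto : ∀ x y, le x y ∨ le y x)
    (hm : ∀ x' x y y', le x' x → R x y → le y' y → R x' y') : ConvAnti le R := by
  refine ⟨fun x y z t h1 h2 h3 h4 => hm x x t z (hr x) h2 h4, fun x x' y y' h1 h2 h3 => ⟨?_, ?_⟩⟩
  · exact ⟨y', hm x x' y' y' h1 h3 (hr y'), hr y'⟩
  · rcases hto y y' with h4 | h4
    · exact ⟨y, hm x' x' y' y (hr x') h3 h4, hr y⟩
    · exact ⟨y', h3, h4⟩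

end Pool.Agent.MON
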